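import Pool.Agent.Lib.MP_d31508_co.Asy.Stmts

/-!
# Module Arc: the closed set made of a path and two branches of the search tree
-/

namespace Pool.Agent.Lib.MP_d31508_co.Asy

open Finset Classical

/-- two distinct neighbours give `2 ≤ dg` -/
theorem arc_two_le {V : Type} [Fintype V] {G : SimpleGraph V} {X : Finset V} {x a b : V}
    (ha : a ∈ X) (hb : b ∈ X) (hab : a ≠ b) (h1 : G.Adj x a) (h2 : G.Adj x b) :
    2 ≤ dg G X x := by
  have : ({a, b} : Finset V) ⊆ X.filter (fun y => G.Adj x y) := by
    intro y hy
    rcases Finset.mem_insert.1 hy with h | h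
    · subst h; exact Finset.mem_filter.2 ⟨ha, h1⟩
    · rw [Finset.mem_singleton] at h; subst h; exact Finset.mem_filter.2 ⟨hb, h2⟩
  have h := Finset.card_le_card this
  rw [Finset.card_pair hab] at h
  exact h

/-- a cycle is a closed set -/
theorem arc_cycle {V : Type} [Fintype V] {G : SimpleGraph V} (N : ℕ) (hN : 3 ≤ N) (γ : ℕ → V)
    (hinj : ∀ s < N, ∀ t < N, γ s = γ t → s = t) (hper : γ N = γ 0)
    (hadj : ∀ s < N, G.Adj (γ s) (γ (s + 1))) :
    Cl G ((Finset.range N).image γ) ∧ ((Finset.range N).image γ).card = N := by
  refine ⟨?_, ?_⟩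
  · intro x hx
    obtain ⟨s, hs, rfl⟩ := Finset.mem_image.1 hx
    have hs' := Finset.mem_range.1 hs
    -- the successor
    have hsucc : γ (s + 1) ∈ (Finset.range N).image γ := by
      by_cases h : s + 1 < N
      · exact Finset.mem_image.2 ⟨s + 1, Finset.mem_range.2 h, rfl⟩
      · have : s + 1 = N := by omega
        rw [this, hper]
        exact Finset.mem_image.2 ⟨0, Finset.mem_range.2 (by omega), rfl⟩
    by_cases h0 : s = 0
    · subst h0
      have hlast : γ (N - 1) ∈ (Finset.range N).image γ :=
        Finset.mem_image.2 ⟨N - 1, Finset.mem_range.2 (by omega), rfl⟩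
      have hadj' : G.Adj (γ 0) (γ (N - 1)) := by
        have := hadj (N - 1) (by omega)
        have hN1 : N - 1 + 1 = N := by omega
        rw [hN1, hper] at this
        exact this.symm
      refine arc_two_le hsucc hlast ?_ (hadj 0 hs') hadj'
      intro h
      have := hinj (0 + 1) (by omega) (N - 1) (by omega) h
      omega
    · have hpred : γ (s - 1) ∈ (Finset.range N).image γ :=
        Finset.mem_image.2 ⟨s - 1, Finset.mem_range.2 (by omega), rfl⟩
      have hadj' : G.Adj (γ s) (γ (s - 1)) := by
        have := hadj (s - 1) (by omega)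
        have hN1 : s - 1 + 1 = s := by omega
        rw [hN1] at this
        exact this.symm
      refine arc_two_le hsucc hpred ?_ (hadj s hs') hadj'
      intro h
      by_cases h' : s + 1 < N
      · have := hinj (s + 1) h' (s - 1) (by omega) h
        omega
      · have hsN : s + 1 = N := by omega
        rw [hsN, hper] at h
        have := hinj 0 (by omega) (s - 1) (by omega) h
        omega
  · rw [Finset.card_image_of_injOn, Finset.card_range]
    intro s hs t ht h
    exact hinj s (Finset.mem_range.1 hs) t (Finset.mem_range.1 ht) h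

/-- iterating the parent map -/
theorem arc_iter {V : Type} [Fintype V] {G : SimpleGraph V} {Z : Finset V} {z : V}
    (T : Bfs G Z z) : ∀ (t : ℕ) (x : V), x ∈ T.C → t ≤ T.lev x →
      T.par^[t] x ∈ T.C ∧ T.lev (T.par^[t] x) + t = T.lev x := by
  intro t
  induction t with
  | zero => intro x hx _; exact ⟨hx, rfl⟩
  | succ t ih =>
    intro x hx ht
    obtain ⟨h1, h2⟩ := ih x hx (by omega)
    have hne : T.par^[t] x ≠ z := by
      intro h
      rw [h, T.lev_root] at h2
      omega
    rw [Function.iterate_succ_apply']
    refine ⟨T.par_mem _ h1 hne, ?_⟩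
    have := T.par_lev _ h1 hne
    omega

/-- adjacency along a branch -/
theorem arc_iter_adj {V : Type} [Fintype V] {G : SimpleGraph V} {Z : Finset V} {z : V}
    (T : Bfs G Z z) (t : ℕ) (x : V) (hx : x ∈ T.C) (ht : t + 1 ≤ T.lev x) :
    G.Adj (T.par^[t] x) (T.par^[t + 1] x) := by
  obtain ⟨h1, h2⟩ := arc_iter T t x hx (by omega)
  have hne : T.par^[t] x ≠ z := by
    intro h
    rw [h, T.lev_root] at h2
    omega
  rw [Function.iterate_succ_apply']
  exact T.par_adj _ h1 hne

theorem stArc : StArc := by
  intro V _ G Z z T i h l p hh hi hl hp hp0 hpl hinj hadj hne heq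
  have hC0 : p 0 ∈ T.C := (hp 0 (by omega)).1
  have hCl : p l ∈ T.C := (hp l le_rfl).1
  set γ : ℕ → V := fun s => if s ≤ l then p s else if s ≤ l + h then T.par^[s - l] (p l)
    else T.par^[2 * h + l - s] (p 0) with hγ
  have g1 : ∀ s, s ≤ l → γ s = p s := fun s hs => by simp [hγ, hs]
  have g2 : ∀ s, l < s → s ≤ l + h → γ s = T.par^[s - l] (p l) := fun s h1 h2 => by
    simp [hγ, h2, not_le.2 h1]
  have g3 : ∀ s, l + h < s → γ s = T.par^[2 * h + l - s] (p 0) := fun s h1 => by
    have h2 : ¬ s ≤ l + h := by omega
    have h3 : ¬ s ≤ l := by omega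
    simp [hγ, h2, h3]
  -- levels
  have v1 : ∀ s, s ≤ l → i ≤ T.lev (γ s) := fun s hs => by rw [g1 s hs]; exact (hp s hs).2
  have v2 : ∀ s, l < s → s ≤ l + h → T.lev (γ s) + (s - l) = i := fun s h1 h2 => by
    rw [g2 s h1 h2]
    have := (arc_iter T (s - l) (p l) hCl (by omega)).2
    omega
  have v3 : ∀ s, l + h < s → s < 2 * h + l → T.lev (γ s) + (2 * h + l - s) = i :=
    fun s h1 h2 => by
    rw [g3 s h1]
    have := (arc_iter T (2 * h + l - s) (p 0) hC0 (by omega)).2
    omega
  have m : ∀ s, s < 2 * h + l → γ s ∈ T.C := by
    intro s hs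
    by_cases h1 : s ≤ l
    · rw [g1 s h1]; exact (hp s h1).1
    · by_cases h2 : s ≤ l + h
      · rw [g2 s (by omega) h2]
        exact (arc_iter T (s - l) (p l) hCl (by omega)).1
      · rw [g3 s (by omega)]
        exact (arc_iter T (2 * h + l - s) (p 0) hC0 (by omega)).1
  -- the key inequality between the branches
  have hbr : ∀ a, a ≤ h - 1 → T.par^[a] (p l) ≠ T.par^[a] (p 0) := by
    intro a ha h'
    apply hne
    have e : h - 1 = (h - 1 - a) + a := by omega
    rw [e, Function.iterate_add_apply, Function.iterate_add_apply, h']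
  -- injectivity for s < t
  have key : ∀ s t, s < t → t < 2 * h + l → γ s ≠ γ t := by
    intro s t hst ht heq'
    by_cases ht1 : t ≤ l
    · rw [g1 s (by omega), g1 t ht1] at heq'
      have := hinj s (by omega) t ht1 heq'
      omega
    · by_cases ht2 : t ≤ l + h
      · have hvt := v2 t (by omega) ht2
        by_cases hs1 : s ≤ l
        · have hvs := v1 s hs1
          rw [heq'] at hvs
          omega
        · have hvs := v2 s (by omega) (by omega)
          rw [heq'] at hvs
          omega
      · have hvt := v3 t (by omega) ht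
        by_cases hs1 : s ≤ l
        · have hvs := v1 s hs1
          rw [heq'] at hvs
          omega
        · by_cases hs2 : s ≤ l + h
          · have hvs := v2 s (by omega) hs2
            rw [heq'] at hvs
            have hst' : s - l = 2 * h + l - t := by omega
            rw [g2 s (by omega) hs2, g3 t (by omega), hst'] at heq'
            exact hbr _ (by omega) heq'
          · have hvs := v3 s (by omega) (by omega)
            rw [heq'] at hvs
            omega
  obtain ⟨c1, c2⟩ := arc_cycle (G := G) (2 * h + l) (by omega) γ
    (by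
      intro s hs t ht heq'
      rcases lt_trichotomy s t with h' | h' | h'
      · exact absurd heq' (key s t h' ht)
      · exact h'
      · exact absurd heq'.symm (key t s h' hs))
    (by
      rw [g1 0 (by omega), g3 (2 * h + l) (by omega), Nat.sub_self]
      rfl)
    (by
      intro s hs
      by_cases h1 : s + 1 ≤ l
      · rw [g1 s (by omega), g1 (s + 1) h1]
        exact hadj s (by omega)
      · by_cases h2 : s = l
        · subst h2
          rw [g1 s le_rfl, g2 (s + 1) (by omega) (by omega)]
          have e : s + 1 - s = 0 + 1 := by omega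
          rw [e]
          exact arc_iter_adj T 0 (p s) hCl (by omega)
        · by_cases h3 : s + 1 ≤ l + h
          · rw [g2 s (by omega) (by omega), g2 (s + 1) (by omega) h3]
            have e : s + 1 - l = (s - l) + 1 := by omega
            rw [e]
            exact arc_iter_adj T (s - l) (p l) hCl (by omega)
          · by_cases h4 : s = l + h
            · rw [g2 s (by omega) (by omega), g3 (s + 1) (by omega)]
              have e1 : s - l = h := by omega
              have e2 : 2 * h + l - (s + 1) = h - 1 := by omega
              rw [e1, e2, ← heq]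
              have e3 : h = (h - 1) + 1 := by omega
              have := arc_iter_adj T (h - 1) (p 0) hC0 (by omega)
              rw [← e3] at this
              exact this.symm
            · rw [g3 s (by omega), g3 (s + 1) (by omega)]
              have e1 : 2 * h + l - s = (2 * h + l - (s + 1)) + 1 := by omega
              rw [e1]
              exact (arc_iter_adj T (2 * h + l - (s + 1)) (p 0) hC0 (by omega)).symm)
  refine ⟨(Finset.range (2 * h + l)).image γ, ?_, c1, c2⟩
  intro x hx
  obtain ⟨s, hs, rfl⟩ := Finset.mem_image.1 hx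
  exact T.sub (m s (Finset.mem_range.1 hs))

end Pool.Agent.Lib.MP_d31508_co.Asy
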