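import Pool.Agent.Lib.MP_d31508_co.Asy.Stmts

/-!
# Module Aug: a path with a loop (or an ear) of logarithmic size
-/

namespace Pool.Agent.Lib.MP_d31508_co.Asy

set_option linter.unusedSectionVars false

open Finset Classical

section aug

variable {V : Type} [Fintype V]

/-- two distinct neighbours in `X` give degree at least two -/
theorem aug_two_le_dg {G : SimpleGraph V} {X : Finset V} {x y z : V} (hy : y ∈ X) (hz : z ∈ X)
    (hyz : y ≠ z) (h1 : G.Adj x y) (h2 : G.Adj x z) : 2 ≤ dg G X x := by
  unfold dg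
  have hsub : ({y, z} : Finset V) ⊆ X.filter (fun y => G.Adj x y) := by
    intro v hv
    simp only [mem_insert, mem_singleton] at hv
    rcases hv with rfl | rfl
    · exact mem_filter.mpr ⟨hy, h1⟩
    · exact mem_filter.mpr ⟨hz, h2⟩
  have := card_le_card hsub
  rw [card_pair hyz] at this
  exact this

variable {G : SimpleGraph V} {Z : Finset V} {w : V}

/-- the ancestors of `x` in the tree -/
noncomputable def augAnc (T : Bfs G Z w) (x : V) : Finset V :=
  (range (T.lev x + 1)).image (fun i => T.par^[i] x)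

theorem aug_iter (T : Bfs G Z w) {x : V} (hx : x ∈ T.C) (i : ℕ) (hi : i ≤ T.lev x) :
    T.par^[i] x ∈ T.C ∧ T.lev (T.par^[i] x) + i = T.lev x := by
  induction i with
  | zero => exact ⟨hx, rfl⟩
  | succ i ih =>
    obtain ⟨h1, h2⟩ := ih (by omega)
    rw [Function.iterate_succ_apply']
    have hne : T.par^[i] x ≠ w := by
      intro h
      rw [h, T.lev_root] at h2
      omega
    refine ⟨T.par_mem _ h1 hne, ?_⟩
    have := T.par_lev _ h1 hne
    omega

theorem aug_root (T : Bfs G Z w) {x : V} (hx : x ∈ T.C) : T.par^[T.lev x] x = w := by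
  obtain ⟨h1, h2⟩ := aug_iter T hx (T.lev x) le_rfl
  exact T.lev_zero _ h1 (by omega)

theorem aug_self_mem (T : Bfs G Z w) (x : V) : x ∈ augAnc T x := by
  unfold augAnc
  exact mem_image.mpr ⟨0, by simp, rfl⟩

theorem aug_root_mem (T : Bfs G Z w) {x : V} (hx : x ∈ T.C) : w ∈ augAnc T x := by
  unfold augAnc
  exact mem_image.mpr ⟨T.lev x, by simp, aug_root T hx⟩

theorem aug_sub (T : Bfs G Z w) {x : V} (hx : x ∈ T.C) : augAnc T x ⊆ T.C := by
  intro y hy
  unfold augAnc at hy
  obtain ⟨i, hi, rfl⟩ := mem_image.mp hy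
  rw [mem_range] at hi
  exact (aug_iter T hx i (by omega)).1

theorem aug_card (T : Bfs G Z w) (x : V) : (augAnc T x).card ≤ T.lev x + 1 := by
  unfold augAnc
  exact card_image_le.trans (by simp)

theorem aug_par_mem (T : Bfs G Z w) {x y : V} (hx : x ∈ T.C) (hy : y ∈ augAnc T x)
    (hyw : y ≠ w) : T.par y ∈ augAnc T x := by
  unfold augAnc at hy ⊢
  obtain ⟨i, hi, rfl⟩ := mem_image.mp hy
  rw [mem_range] at hi
  have hi' : i ≠ T.lev x := by
    intro h
    apply hyw
    rw [h]
    exact aug_root T hx
  refine mem_image.mpr ⟨i + 1, by rw [mem_range]; omega, ?_⟩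
  rw [Function.iterate_succ_apply']

theorem aug_lev_le (T : Bfs G Z w) {x y : V} (hx : x ∈ T.C) (hy : y ∈ augAnc T x) :
    T.lev y ≤ T.lev x := by
  unfold augAnc at hy
  obtain ⟨i, hi, rfl⟩ := mem_image.mp hy
  rw [mem_range] at hi
  have := (aug_iter T hx i (by omega)).2
  omega

/-- child on the branch -/
theorem aug_child (T : Bfs G Z w) {x y : V} (hx : x ∈ T.C) (hy : y ∈ augAnc T x)
    (hyx : y ≠ x) : ∃ c ∈ augAnc T x, T.lev c = T.lev y + 1 ∧ G.Adj y c := by
  unfold augAnc at hy
  obtain ⟨i, hi, rfl⟩ := mem_image.mp hy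
  rw [mem_range] at hi
  have hi0 : i ≠ 0 := by
    intro h
    apply hyx
    rw [h]
    rfl
  obtain ⟨j, rfl⟩ : ∃ j, i = j + 1 := ⟨i - 1, by omega⟩
  obtain ⟨h1, h2⟩ := aug_iter T hx j (by omega)
  obtain ⟨h3, h4⟩ := aug_iter T hx (j + 1) (by omega)
  have hne : T.par^[j] x ≠ w := by
    intro h
    rw [h, T.lev_root] at h2
    omega
  refine ⟨T.par^[j] x, ?_, ?_, ?_⟩
  · unfold augAnc
    exact mem_image.mpr ⟨j, by rw [mem_range]; omega, rfl⟩
  · omega
  · have := T.par_adj _ h1 hne
    rw [Function.iterate_succ_apply']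
    exact this.symm

/-- inner vertices of a branch have degree two -/
theorem aug_inner (T : Bfs G Z w) {x y : V} {X : Finset V} (hx : x ∈ T.C) (hX : augAnc T x ⊆ X)
    (hy : y ∈ augAnc T x) (hyx : y ≠ x) (hyw : y ≠ w) : 2 ≤ dg G X y := by
  obtain ⟨c, hc1, hc2, hc3⟩ := aug_child T hx hy hyx
  have hyC := aug_sub T hx hy
  have hp := T.par_lev y hyC hyw
  refine aug_two_le_dg (hX (aug_par_mem T hx hy hyw)) (hX hc1) ?_ (T.par_adj y hyC hyw) hc3
  intro h
  rw [h] at hp
  omega

/-- the root of a branch has degree two, counting its neighbour in `A` -/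
theorem aug_root_two (T : Bfs G Z w) {x a : V} {X A : Finset V} (hx : x ∈ T.C)
    (hX : augAnc T x ⊆ X) (hlev : 1 ≤ T.lev x) (ha : a ∈ A) (haZ : a ∉ Z) (haw : G.Adj w a) :
    2 ≤ dg G (X ∪ A) w := by
  have hxw : w ≠ x := by
    intro h
    rw [← h, T.lev_root] at hlev
    omega
  obtain ⟨c, hc1, hc2, hc3⟩ := aug_child T hx (aug_root_mem T hx) hxw
  refine aug_two_le_dg (y := c) (z := a) (mem_union_left _ (hX hc1)) (mem_union_right _ ha) ?_
    hc3 haw
  intro h
  exact haZ (h ▸ T.sub (aug_sub T hx hc1))

end aug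

/-- module Aug -/
theorem stAug (hB : StBfs) : StAug := by
  intro V _ G W A w b R hb hW hAW hwW hwA hex hV
  obtain ⟨a, haA, haw⟩ := hex
  have hwZ : w ∈ W \ A := mem_sdiff.mpr ⟨hwW, hwA⟩
  obtain ⟨T⟩ := hB V G (W \ A) w hwZ
  by_contra hno
  push Not at hno
  have haZ : a ∉ W \ A := fun h => (mem_sdiff.mp h).2 haA
  -- no good set
  have hbad : ∀ X : Finset V, X ⊆ W \ A → w ∈ X → X.card ≤ 2 * R + 3 →
      (∀ x ∈ X, 2 ≤ dg G (X ∪ A) x) → False := by
    intro X h1 h2 h3 h4
    obtain ⟨x, hx, hx2⟩ := hno X h1 h2 h3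
    exact absurd (h4 x hx) (by omega)
  have h0 : dg G A w ≤ 1 := by
    by_contra h
    push Not at h
    refine hbad {w} (by simpa using ⟨hwW, hwA⟩) (by simp) (by simp) ?_
    intro x hx
    rw [mem_singleton] at hx
    subst hx
    refine le_trans h ?_
    unfold dg
    exact card_le_card (filter_subset_filter _ subset_union_right)
  have h1 : ∀ x ∈ T.C, 1 ≤ T.lev x → T.lev x ≤ R → ∀ y ∈ A, ¬ G.Adj x y := by
    intro x hx hx1 hxR y hy hxy
    have hxw : x ≠ w := by
      intro h
      rw [h, T.lev_root] at hx1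
      omega
    refine hbad (augAnc T x) ((aug_sub T hx).trans T.sub) (aug_root_mem T hx)
      ((aug_card T x).trans (by omega)) ?_
    intro v hv
    by_cases hvw : v = w
    · subst hvw
      exact aug_root_two T hx (subset_refl _) hx1 haA haZ haw
    by_cases hvx : v = x
    · subst hvx
      refine aug_two_le_dg (mem_union_left _ (aug_par_mem T hx hv hvw)) (mem_union_right _ hy) ?_
        (T.par_adj v hx hvw) hxy
      intro h
      have : T.par v ∈ W \ A := T.sub (T.par_mem v hx hvw)
      exact (mem_sdiff.mp this).2 (h ▸ hy)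
    · refine aug_inner T hx ?_ hv hvx hvw
      exact subset_union_left
  have h2 : ∀ x ∈ T.C, ∀ x' ∈ T.C, 1 ≤ T.lev x → T.lev x ≤ R → T.lev x' ≤ T.lev x →
      G.Adj x x' → x' = T.par x := by
    intro x hx x' hx' hx1 hxR hle hadj
    by_contra hne
    have hxw : x ≠ w := by
      intro h
      rw [h, T.lev_root] at hx1
      omega
    have hs1 : augAnc T x ⊆ augAnc T x ∪ augAnc T x' := subset_union_left
    have hs2 : augAnc T x' ⊆ augAnc T x ∪ augAnc T x' := subset_union_right
    refine hbad (augAnc T x ∪ augAnc T x')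
      (union_subset ((aug_sub T hx).trans T.sub) ((aug_sub T hx').trans T.sub))
      (hs1 (aug_root_mem T hx)) ?_ ?_
    · refine (card_union_le _ _).trans ?_
      have := aug_card T x
      have := aug_card T x'
      omega
    intro v hv
    by_cases hvw : v = w
    · subst hvw
      exact aug_root_two T hx hs1 hx1 haA haZ haw
    by_cases hvx : v = x
    · subst hvx
      refine aug_two_le_dg (y := T.par v) (z := x')
        (mem_union_left _ (hs1 (aug_par_mem T hx (aug_self_mem T v) hvw)))
        (mem_union_left _ (hs2 (aug_self_mem T x'))) (fun h => hne h.symm)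
        (T.par_adj v hx hvw) hadj
    by_cases hvx' : v = x'
    · subst hvx'
      refine aug_two_le_dg (y := T.par v) (z := x)
        (mem_union_left _ (hs2 (aug_par_mem T hx' (aug_self_mem T v) hvw)))
        (mem_union_left _ (hs1 (aug_self_mem T x))) ?_
        (T.par_adj v hx' hvw) hadj.symm
      intro h
      have := T.par_lev v hx' hvw
      rw [h] at this
      omega
    rcases mem_union.mp hv with hv | hv
    · exact aug_inner T hx (hs1.trans subset_union_left) hv hvx hvw
    · exact aug_inner T hx' (hs2.trans subset_union_left) hv hvx' hvw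
  have h3 : ∀ y ∈ T.C, ∀ x ∈ T.C, ∀ x' ∈ T.C, T.lev y ≤ R + 1 → T.lev y = T.lev x + 1 →
      T.lev x' = T.lev x → G.Adj x y → G.Adj x' y → x = x' := by
    intro y hy x hx x' hx' hyR hyx hlev hadj hadj'
    by_contra hne
    by_cases hx0 : T.lev x = 0
    · apply hne
      rw [T.lev_zero x hx hx0, T.lev_zero x' hx' (by omega)]
    have hs1 : augAnc T x ⊆ insert y (augAnc T x ∪ augAnc T x') :=
      subset_union_left.trans (subset_insert _ _)
    have hs2 : augAnc T x' ⊆ insert y (augAnc T x ∪ augAnc T x') :=
      subset_union_right.trans (subset_insert _ _)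
    have hy0 : y ∈ insert y (augAnc T x ∪ augAnc T x') := mem_insert_self _ _
    have hyw : y ≠ w := by
      intro h
      rw [h, T.lev_root] at hyx
      omega
    refine hbad (insert y (augAnc T x ∪ augAnc T x'))
      (insert_subset (T.sub hy)
        (union_subset ((aug_sub T hx).trans T.sub) ((aug_sub T hx').trans T.sub)))
      (hs1 (aug_root_mem T hx)) ?_ ?_
    · refine (card_insert_le _ _).trans ?_
      have := card_union_le (augAnc T x) (augAnc T x')
      have hw1 := aug_card T x
      have hw2 := aug_card T x'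
      -- `w` is in both
      have hinter : 1 ≤ (augAnc T x ∩ augAnc T x').card :=
        card_pos.mpr ⟨w, mem_inter.mpr ⟨aug_root_mem T hx, aug_root_mem T hx'⟩⟩
      have := card_union_add_card_inter (augAnc T x) (augAnc T x')
      omega
    intro v hv
    by_cases hvw : v = w
    · subst hvw
      exact aug_root_two T hx hs1 (by omega) haA haZ haw
    by_cases hvy : v = y
    · subst hvy
      exact aug_two_le_dg (y := x) (z := x')
        (mem_union_left _ (hs1 (aug_self_mem T x)))
        (mem_union_left _ (hs2 (aug_self_mem T x'))) hne hadj.symm hadj'.symm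
    have hpy : ∀ u ∈ T.C, u ≠ w → T.lev u + 1 = T.lev y → T.par u ≠ y := by
      intro u hu huw huy h
      have := T.par_lev u hu huw
      rw [h] at this
      omega
    by_cases hvx : v = x
    · subst hvx
      exact aug_two_le_dg (y := T.par v) (z := y)
        (mem_union_left _ (hs1 (aug_par_mem T hx (aug_self_mem T v) hvw)))
        (mem_union_left _ hy0) (hpy v hx hvw (by omega)) (T.par_adj v hx hvw) hadj
    by_cases hvx' : v = x'
    · subst hvx'
      exact aug_two_le_dg (y := T.par v) (z := y)
        (mem_union_left _ (hs2 (aug_par_mem T hx' (aug_self_mem T v) hvw)))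
        (mem_union_left _ hy0) (hpy v hx' hvw (by omega)) (T.par_adj v hx' hvw) hadj'
    rcases mem_insert.mp hv with hv | hv
    · exact absurd hv hvy
    rcases mem_union.mp hv with hv | hv
    · exact aug_inner T hx (hs1.trans subset_union_left) hv hvx hvw
    · exact aug_inner T hx' (hs2.trans subset_union_left) hv hvx' hvw
  -- levels
  set L : ℕ → Finset V := fun t => T.C.filter (fun x => T.lev x = t) with hL
  have memL : ∀ t x, x ∈ L t ↔ x ∈ T.C ∧ T.lev x = t := by
    intro t x
    simp [hL]
  have hL1 : b ≤ (L 1).card := by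
    have hd := hW w hwW
    have hsub : W.filter (fun y => G.Adj w y) ⊆
        A.filter (fun y => G.Adj w y) ∪ L 1 := by
      intro y hy
      rw [mem_filter] at hy
      by_cases hyA : y ∈ A
      · exact mem_union_left _ (mem_filter.mpr ⟨hyA, hy.2⟩)
      · refine mem_union_right _ ?_
        rw [memL]
        obtain ⟨hyC, hyl⟩ := T.nb w T.root y (mem_sdiff.mpr ⟨hy.1, hyA⟩) hy.2
        rw [T.lev_root] at hyl
        refine ⟨hyC, ?_⟩
        by_contra h
        have h00 : T.lev y = 0 := by omega
        have := T.lev_zero y hyC h00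
        rw [this] at hy
        exact G.loopless.irrefl w hy.2
    have hc := (card_le_card hsub).trans (card_union_le _ _)
    unfold dg at hd h0
    omega
  have hstep : ∀ t, 1 ≤ t → t ≤ R → (L t).card * b ≤ (L (t + 1)).card := by
    intro t ht1 htR
    have := card_mul_le_card_mul (s := L t) (t := L (t + 1)) (fun x y => G.Adj x y) (m := b)
      (n := 1) ?_ ?_
    · simpa using this
    · intro x hx
      rw [memL] at hx
      have hxW : x ∈ W := (mem_sdiff.mp (T.sub hx.1)).1
      have hd := hW x hxW
      have hsub : W.filter (fun y => G.Adj x y) ⊆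
          {T.par x} ∪ (L (t + 1)).bipartiteAbove (fun x y => G.Adj x y) x := by
        intro y hy
        rw [mem_filter] at hy
        have hyA : y ∉ A := fun h => h1 x hx.1 (by omega) (by omega) y h hy.2
        obtain ⟨hyC, hyl⟩ := T.nb x hx.1 y (mem_sdiff.mpr ⟨hy.1, hyA⟩) hy.2
        by_cases hle : T.lev y ≤ T.lev x
        · refine mem_union_left _ ?_
          rw [mem_singleton]
          exact h2 x hx.1 y hyC (by omega) (by omega) hle hy.2
        · refine mem_union_right _ ?_
          rw [mem_bipartiteAbove, memL]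
          exact ⟨⟨hyC, by omega⟩, hy.2⟩
      have hc := (card_le_card hsub).trans (card_union_le _ _)
      rw [card_singleton] at hc
      unfold dg at hd
      omega
    · intro y hy
      rw [memL] at hy
      rw [card_le_one]
      intro x hx x' hx'
      rw [mem_bipartiteBelow, memL] at hx hx'
      exact h3 y hy.1 x hx.1.1 x' hx'.1.1 (by omega) (by omega) (by omega) hx.2 hx'.2
  have hgrow : ∀ t, t ≤ R → b ^ (t + 1) ≤ (L (t + 1)).card := by
    intro t
    induction t with
    | zero => intro _; simpa using hL1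
    | succ t ih =>
      intro ht
      have h5 := ih (by omega)
      have h6 := hstep (t + 1) (by omega) ht
      calc b ^ (t + 1 + 1) = b ^ (t + 1) * b := pow_succ _ _
        _ ≤ (L (t + 1)).card * b := Nat.mul_le_mul_right _ h5
        _ ≤ _ := h6
  have := hgrow R le_rfl
  have hle : (L (R + 1)).card ≤ Fintype.card V := card_le_univ _
  omega

end Pool.Agent.Lib.MP_d31508_co.Asy
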