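import Pool.Agent.Lib.MP_d31508_co.Asy.Stmts

namespace Pool.Agent.Lib.MP_d31508_co.Asy

open Finset Classical

theorem band_D_eq {V : Type} [Fintype V] (G : SimpleGraph V) (X : Finset V) :
    D G X = ((X ×ˢ X).filter (fun p => G.Adj p.1 p.2)).card := by
  unfold D dg
  rw [Finset.card_filter, Finset.sum_product]
  exact Finset.sum_congr rfl (fun x _ => by rw [Finset.card_filter])

/-- the bipartite graph between two sets -/
def bandBip {V : Type} (G : SimpleGraph V) (A B : Finset V) : SimpleGraph V where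
  Adj x y := G.Adj x y ∧ ((x ∈ A ∧ y ∈ B) ∨ (y ∈ A ∧ x ∈ B))
  symm := ⟨fun x y h => ⟨h.1.symm, by tauto⟩⟩
  loopless := ⟨fun x h => G.loopless.irrefl x h.1⟩

theorem stBand (h : StSub) : StBand := by
  intro V _ G Z z T κ R q hκ hq hdeg hV
  by_contra hcon
  push Not at hcon
  set B : ℕ → Finset V := fun t => T.C.filter (fun x => T.lev x ≤ t) with hB
  set L : ℕ → Finset V := fun t => T.C.filter (fun x => T.lev x = t) with hL
  have hmemB : ∀ t x, x ∈ B t ↔ x ∈ T.C ∧ T.lev x ≤ t := fun t x => by
    rw [hB]; exact Finset.mem_filter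
  have hmemL : ∀ t x, x ∈ L t ↔ x ∈ T.C ∧ T.lev x = t := fun t x => by
    rw [hL]; exact Finset.mem_filter
  -- step 1
  obtain ⟨t, htR, ht⟩ : ∃ t, t ≤ R ∧ (B (t + 1)).card ≤ κ * (B t).card := by
    by_contra hno
    push Not at hno
    have hpow : ∀ t, t ≤ R + 1 → κ ^ t ≤ (B t).card := by
      intro t
      induction t with
      | zero =>
        intro _
        rw [pow_zero]
        exact Finset.card_pos.mpr ⟨z, (hmemB 0 z).2 ⟨T.root, by rw [T.lev_root]⟩⟩
      | succ t ih =>
        intro ht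
        have h1 := ih (by omega)
        have h2 := hno t (by omega)
        calc κ ^ (t + 1) = κ * κ ^ t := by ring
          _ ≤ κ * (B t).card := Nat.mul_le_mul_left _ h1
          _ ≤ _ := h2.le
    have h1 := hpow (R + 1) le_rfl
    have h2 : (B (R + 1)).card ≤ Fintype.card V := Finset.card_le_univ _
    omega
  -- step 2
  have hsubB : B t ⊆ B (t + 1) := by
    intro x hx
    rw [hmemB] at hx ⊢
    exact ⟨hx.1, by omega⟩
  have hlow : 6 * q * (B (t + 1)).card ≤ D G (B (t + 1)) := by
    have h1 : ∀ x ∈ B t, 6 * q * κ ≤ dg G (B (t + 1)) x := by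
      intro x hx
      rw [hmemB] at hx
      refine le_trans (hdeg x (T.sub hx.1)) ?_
      unfold dg
      apply Finset.card_le_card
      intro y hy
      rw [Finset.mem_filter] at hy ⊢
      have := T.nb x hx.1 y hy.1 hy.2
      exact ⟨(hmemB _ _).2 ⟨this.1, by omega⟩, hy.2⟩
    calc 6 * q * (B (t + 1)).card ≤ 6 * q * (κ * (B t).card) := Nat.mul_le_mul_left _ ht
      _ = ∑ x ∈ B t, 6 * q * κ := by rw [Finset.sum_const, smul_eq_mul]; ring
      _ ≤ ∑ x ∈ B t, dg G (B (t + 1)) x := Finset.sum_le_sum h1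
      _ ≤ D G (B (t + 1)) := Finset.sum_le_sum_of_subset hsubB
  -- layers
  have hlay : ∀ i, i ≤ R + 1 → (L i).Nonempty → D G (L i) < 2 * q * (L i).card := by
    intro i hi hne
    by_contra hge
    push Not at hge
    obtain ⟨Y, hYL, hYne, hYd⟩ := h V G q (L i) hne hq hge
    obtain ⟨x, hx, hx2⟩ := (hcon i hi).1 Y hYne (fun x hx => (hmemL i x).1 (hYL hx))
    have := hYd x hx
    omega
  have hlay' : ∀ i, i ≤ R + 1 → D G (L i) ≤ 2 * q * (L i).card := by
    intro i hi
    by_cases hne : (L i).Nonempty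
    · exact (hlay i hi hne).le
    · rw [Finset.not_nonempty_iff_eq_empty] at hne
      rw [hne]; simp [D]
  have hpair : ∀ i, i ≤ R →
      D (bandBip G (L i) (L (i + 1))) (L i ∪ L (i + 1)) ≤ 2 * q * ((L i).card + (L (i + 1)).card) := by
    intro i hi
    set H := bandBip G (L i) (L (i + 1)) with hH
    have hHadj : ∀ x y, H.Adj x y ↔
        G.Adj x y ∧ ((x ∈ L i ∧ y ∈ L (i + 1)) ∨ (y ∈ L i ∧ x ∈ L (i + 1))) := fun x y => Iff.rfl
    have hdisj : ∀ x, x ∈ L i → x ∈ L (i + 1) → False := by
      intro x h1 h2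
      rw [hmemL] at h1 h2
      omega
    by_cases hne : (L i ∪ L (i + 1)).Nonempty
    · have hlt : D H (L i ∪ L (i + 1)) < 2 * q * (L i ∪ L (i + 1)).card := by
        by_contra hge
        push Not at hge
        obtain ⟨Y, hYX, hYne, hYd⟩ := h V H q _ hne hq hge
        have hd0 : ∀ x ∈ Y.filter (fun x => x ∈ L i),
            q ≤ dg G (Y.filter (fun x => x ∈ L (i + 1))) x := by
          intro x hx
          rw [Finset.mem_filter] at hx
          refine le_trans (hYd x hx.1) ?_
          unfold dg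
          apply Finset.card_le_card
          intro y hy
          rw [Finset.mem_filter] at hy
          rw [Finset.mem_filter, Finset.mem_filter]
          obtain ⟨hyY, hadj, h1 | h1⟩ := hy
          · exact ⟨⟨hyY, h1.2⟩, hadj⟩
          · exact (hdisj x hx.2 h1.2).elim
        have hd1 : ∀ x ∈ Y.filter (fun x => x ∈ L (i + 1)),
            q ≤ dg G (Y.filter (fun x => x ∈ L i)) x := by
          intro x hx
          rw [Finset.mem_filter] at hx
          refine le_trans (hYd x hx.1) ?_
          unfold dg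
          apply Finset.card_le_card
          intro y hy
          rw [Finset.mem_filter] at hy
          rw [Finset.mem_filter, Finset.mem_filter]
          obtain ⟨hyY, hadj, h1 | h1⟩ := hy
          · exact (hdisj x h1.1 hx.2).elim
          · exact ⟨⟨hyY, h1.1⟩, hadj⟩
        have hne0 : (Y.filter (fun x => x ∈ L i)).Nonempty := by
          obtain ⟨x, hx⟩ := hYne
          rcases Finset.mem_union.1 (hYX hx) with h1 | h1
          · exact ⟨x, Finset.mem_filter.2 ⟨hx, h1⟩⟩
          · have h2 := hd1 x (Finset.mem_filter.2 ⟨hx, h1⟩)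
            unfold dg at h2
            have h3 : 0 < ((Y.filter (fun x => x ∈ L i)).filter (fun y => G.Adj x y)).card := by
              omega
            obtain ⟨y, hy⟩ := Finset.card_pos.1 h3
            exact ⟨y, (Finset.mem_filter.1 hy).1⟩
        have h2 := (hcon i (by omega)).2 (Y.filter (fun x => x ∈ L i))
          (Y.filter (fun x => x ∈ L (i + 1))) hne0
          (fun x hx => (hmemL _ _).1 (Finset.mem_filter.1 hx).2)
          (fun x hx => (hmemL _ _).1 (Finset.mem_filter.1 hx).2) hd0
        obtain ⟨x, hx, hx2⟩ := h2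
        have := hd1 x hx
        omega
      have hcu : (L i ∪ L (i + 1)).card ≤ (L i).card + (L (i + 1)).card := Finset.card_union_le _ _
      calc D H (L i ∪ L (i + 1)) ≤ 2 * q * (L i ∪ L (i + 1)).card := hlt.le
        _ ≤ _ := Nat.mul_le_mul_left _ hcu
    · rw [Finset.not_nonempty_iff_eq_empty] at hne
      rw [hne]; simp [D]
  -- step 4
  have hcount : D G (B (t + 1)) ≤ ∑ i ∈ Finset.range (t + 2), D G (L i) +
      ∑ i ∈ Finset.range (t + 1), D (bandBip G (L i) (L (i + 1))) (L i ∪ L (i + 1)) := by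
    rw [band_D_eq]
    have e1 : ∑ i ∈ Finset.range (t + 2), D G (L i) =
        ∑ i ∈ Finset.range (t + 2), ((L i ×ˢ L i).filter (fun p => G.Adj p.1 p.2)).card :=
      Finset.sum_congr rfl (fun i _ => band_D_eq G (L i))
    have e2 : ∑ i ∈ Finset.range (t + 1), D (bandBip G (L i) (L (i + 1))) (L i ∪ L (i + 1)) =
        ∑ i ∈ Finset.range (t + 1), (((L i ∪ L (i + 1)) ×ˢ (L i ∪ L (i + 1))).filter
          (fun p => (bandBip G (L i) (L (i + 1))).Adj p.1 p.2)).card :=
      Finset.sum_congr rfl (fun i _ => band_D_eq _ _)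
    rw [e1, e2]
    refine le_trans (Finset.card_le_card (t := (Finset.range (t + 2)).biUnion
      (fun i => (L i ×ˢ L i).filter (fun p => G.Adj p.1 p.2)) ∪
      (Finset.range (t + 1)).biUnion (fun i => ((L i ∪ L (i + 1)) ×ˢ (L i ∪ L (i + 1))).filter
          (fun p => (bandBip G (L i) (L (i + 1))).Adj p.1 p.2))) ?_) ?_
    · rintro ⟨x, y⟩ hxy
      rw [Finset.mem_filter, Finset.mem_product] at hxy
      obtain ⟨⟨hx, hy⟩, hadj⟩ := hxy
      simp only at hx hy hadj
      rw [hmemB] at hx hy
      have h1 := T.nb x hx.1 y (T.sub hy.1) hadj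
      have h2 := T.nb y hy.1 x (T.sub hx.1) hadj.symm
      rw [Finset.mem_union, Finset.mem_biUnion, Finset.mem_biUnion]
      rcases lt_trichotomy (T.lev x) (T.lev y) with h3 | h3 | h3
      · right
        refine ⟨T.lev x, Finset.mem_range.2 (by omega), ?_⟩
        rw [Finset.mem_filter, Finset.mem_product]
        have hxl : x ∈ L (T.lev x) := (hmemL _ _).2 ⟨hx.1, rfl⟩
        have hyl : y ∈ L (T.lev x + 1) := (hmemL _ _).2 ⟨hy.1, by omega⟩
        exact ⟨⟨Finset.mem_union_left _ hxl, Finset.mem_union_right _ hyl⟩,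
          hadj, Or.inl ⟨hxl, hyl⟩⟩
      · left
        refine ⟨T.lev x, Finset.mem_range.2 (by omega), ?_⟩
        rw [Finset.mem_filter, Finset.mem_product]
        exact ⟨⟨(hmemL _ _).2 ⟨hx.1, rfl⟩, (hmemL _ _).2 ⟨hy.1, h3.symm⟩⟩, hadj⟩
      · right
        refine ⟨T.lev y, Finset.mem_range.2 (by omega), ?_⟩
        rw [Finset.mem_filter, Finset.mem_product]
        have hyl : y ∈ L (T.lev y) := (hmemL _ _).2 ⟨hy.1, rfl⟩
        have hxl : x ∈ L (T.lev y + 1) := (hmemL _ _).2 ⟨hx.1, by omega⟩
        exact ⟨⟨Finset.mem_union_right _ hxl, Finset.mem_union_left _ hyl⟩,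
          hadj, Or.inr ⟨hyl, hxl⟩⟩
    · refine le_trans (Finset.card_union_le _ _) ?_
      exact Nat.add_le_add Finset.card_biUnion_le Finset.card_biUnion_le
  have hsumL : ∑ i ∈ Finset.range (t + 2), (L i).card = (B (t + 1)).card := by
    rw [Finset.card_eq_sum_card_fiberwise (f := T.lev) (t := Finset.range (t + 2))]
    · apply Finset.sum_congr rfl
      intro i hi
      rw [Finset.mem_range] at hi
      congr 1
      ext x
      rw [hmemL, Finset.mem_filter, hmemB]
      constructor
      · rintro ⟨h1, h2⟩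
        exact ⟨⟨h1, by omega⟩, h2⟩
      · rintro ⟨⟨h1, _⟩, h2⟩
        exact ⟨h1, h2⟩
    · intro x hx
      have hx' : x ∈ B (t + 1) := hx
      rw [hmemB] at hx'
      simp only [Finset.coe_range, Set.mem_Iio]
      omega
  have hS1 : ∑ i ∈ Finset.range (t + 2), D G (L i) < 2 * q * (B (t + 1)).card := by
    rw [← hsumL, Finset.mul_sum]
    apply Finset.sum_lt_sum
    · intro i hi
      rw [Finset.mem_range] at hi
      exact hlay' i (by omega)
    · refine ⟨0, Finset.mem_range.2 (by omega), hlay 0 (by omega) ?_⟩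
      exact ⟨z, (hmemL _ _).2 ⟨T.root, T.lev_root⟩⟩
  have hS2 : ∑ i ∈ Finset.range (t + 1), D (bandBip G (L i) (L (i + 1))) (L i ∪ L (i + 1)) ≤
      4 * q * (B (t + 1)).card := by
    have h1 : ∑ i ∈ Finset.range (t + 1), (L i).card ≤ (B (t + 1)).card := by
      rw [← hsumL]
      exact Finset.sum_le_sum_of_subset (Finset.range_mono (by omega))
    have h2 : ∑ i ∈ Finset.range (t + 1), (L (i + 1)).card ≤ (B (t + 1)).card := by
      rw [← hsumL, Finset.sum_range_succ' _ (t + 1)]
      omega
    calc ∑ i ∈ Finset.range (t + 1), D (bandBip G (L i) (L (i + 1))) (L i ∪ L (i + 1))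
        ≤ ∑ i ∈ Finset.range (t + 1), 2 * q * ((L i).card + (L (i + 1)).card) := by
          apply Finset.sum_le_sum
          intro i hi
          rw [Finset.mem_range] at hi
          exact hpair i (by omega)
      _ = 2 * q * (∑ i ∈ Finset.range (t + 1), (L i).card +
            ∑ i ∈ Finset.range (t + 1), (L (i + 1)).card) := by
          rw [← Finset.mul_sum, Finset.sum_add_distrib]
      _ ≤ 2 * q * ((B (t + 1)).card + (B (t + 1)).card) :=
          Nat.mul_le_mul_left _ (Nat.add_le_add h1 h2)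
      _ = 4 * q * (B (t + 1)).card := by ring
  have : 6 * q * (B (t + 1)).card = 2 * q * (B (t + 1)).card + 4 * q * (B (t + 1)).card := by ring
  omega

end Pool.Agent.Lib.MP_d31508_co.Asy
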