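import Pool.Agent.Lib.MP_d31508_co.Asy.Stmts

/-!
# Project AS (MP_d31508_co), module Bfs: breadth first search inside `Z`
-/

namespace Pool.Agent.Lib.MP_d31508_co.Asy

open Finset Classical

/-- balls of the search -/
noncomputable def bfsBall {V : Type} (G : SimpleGraph V) (Z : Finset V) (z : V) : ℕ → Finset V
  | 0 => {z}
  | t + 1 => bfsBall G Z z t ∪ Z.filter (fun y => ∃ x ∈ bfsBall G Z z t, G.Adj x y)

lemma bfs_succ {V : Type} (G : SimpleGraph V) (Z : Finset V) (z : V) (t : ℕ) :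
    bfsBall G Z z (t + 1) =
      bfsBall G Z z t ∪ Z.filter (fun y => ∃ x ∈ bfsBall G Z z t, G.Adj x y) := rfl

lemma bfs_mono {V : Type} (G : SimpleGraph V) (Z : Finset V) (z : V) {s t : ℕ} (h : s ≤ t) :
    bfsBall G Z z s ⊆ bfsBall G Z z t := by
  induction t, h using Nat.le_induction with
  | base => exact subset_rfl
  | succ t _ ih =>
    rw [bfs_succ]
    exact ih.trans subset_union_left

lemma bfs_sub {V : Type} (G : SimpleGraph V) {Z : Finset V} {z : V} (hz : z ∈ Z) (t : ℕ) :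
    bfsBall G Z z t ⊆ Z := by
  induction t with
  | zero =>
    intro x hx
    have : x = z := Finset.mem_singleton.1 hx
    rwa [this]
  | succ t ih =>
    rw [bfs_succ]
    exact union_subset ih (filter_subset _ _)

/-- the level -/
noncomputable def bfsLev {V : Type} (G : SimpleGraph V) (Z : Finset V) (z y : V) : ℕ :=
  if h : ∃ t, y ∈ bfsBall G Z z t then Nat.find h else 0

lemma bfs_lev_mem {V : Type} {G : SimpleGraph V} {Z : Finset V} {z y : V}
    (h : ∃ t, y ∈ bfsBall G Z z t) : y ∈ bfsBall G Z z (bfsLev G Z z y) := by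
  unfold bfsLev
  rw [dif_pos h]
  exact Nat.find_spec h

lemma bfs_lev_le {V : Type} {G : SimpleGraph V} {Z : Finset V} {z y : V} {t : ℕ}
    (h : y ∈ bfsBall G Z z t) : bfsLev G Z z y ≤ t := by
  unfold bfsLev
  rw [dif_pos ⟨t, h⟩]
  exact Nat.find_min' _ h

lemma bfs_pred {V : Type} {G : SimpleGraph V} {Z : Finset V} {z y : V}
    (h : ∃ t, y ∈ bfsBall G Z z t) (hy : y ≠ z) :
    ∃ x, (x ∈ bfsBall G Z z (bfsLev G Z z y - 1) ∧ G.Adj x y) ∧ bfsLev G Z z x + 1 =
      bfsLev G Z z y := by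
  have h1 := bfs_lev_mem h
  rcases Nat.eq_zero_or_pos (bfsLev G Z z y) with h0 | h0
  · rw [h0] at h1
    exact absurd (Finset.mem_singleton.1 h1) hy
  · obtain ⟨s, hs'⟩ : ∃ s, bfsLev G Z z y = s + 1 := ⟨bfsLev G Z z y - 1, by omega⟩
    rw [hs', bfs_succ, mem_union, mem_filter] at h1
    have h2 : y ∉ bfsBall G Z z s := by
      intro h3
      have := bfs_lev_le h3
      omega
    obtain ⟨-, x, hx, hxy⟩ := h1.resolve_left h2
    refine ⟨x, ⟨?_, hxy⟩, ?_⟩
    · rw [hs']; exact hx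
    · have h3 := bfs_lev_le hx
      by_contra hne
      have h4 : bfsLev G Z z x + 1 ≤ s := by omega
      have h5 := bfs_lev_mem ⟨s, hx⟩
      have hyZ : y ∈ Z ∨ y ∈ bfsBall G Z z s := by
        rcases h1 with h | h
        · exact Or.inr h
        · exact Or.inl h.1
      have h6 : y ∈ bfsBall G Z z (bfsLev G Z z x + 1) := by
        rw [bfs_succ, mem_union, mem_filter]
        exact Or.inr ⟨hyZ.resolve_right h2, x, h5, hxy⟩
      exact h2 (bfs_mono G Z z h4 h6)

theorem stBfs : StBfs := by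
  intro V _ G Z z hz
  have hex : ∀ y : V, ∃ x : V, (∃ t, y ∈ bfsBall G Z z t) → y ≠ z →
      (x ∈ bfsBall G Z z (bfsLev G Z z y - 1) ∧ G.Adj x y) ∧ bfsLev G Z z x + 1 =
      bfsLev G Z z y := by
    intro y
    by_cases h : (∃ t, y ∈ bfsBall G Z z t) ∧ y ≠ z
    · obtain ⟨x, hx⟩ := bfs_pred h.1 h.2
      exact ⟨x, fun _ _ => hx⟩
    · exact ⟨y, fun h1 h2 => absurd ⟨h1, h2⟩ h⟩
  choose par hpar using hex
  have hmem : ∀ y, y ∈ Z.filter (fun y => ∃ t, y ∈ bfsBall G Z z t) ↔
      ∃ t, y ∈ bfsBall G Z z t := by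
    intro y
    rw [mem_filter]
    exact ⟨fun h => h.2, fun h => ⟨bfs_sub G hz _ h.choose_spec, h⟩⟩
  refine ⟨{ C := Z.filter (fun y => ∃ t, y ∈ bfsBall G Z z t)
            lev := bfsLev G Z z
            par := par
            root := (hmem z).2 ⟨0, Finset.mem_singleton_self z⟩
            sub := filter_subset _ _
            lev_root := Nat.le_zero.1 (bfs_lev_le (t := 0) (Finset.mem_singleton_self z))
            lev_zero := ?_
            par_mem := ?_
            par_lev := ?_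
            par_adj := ?_
            nb := ?_ }⟩
  · intro x hx h0
    have := bfs_lev_mem ((hmem x).1 hx)
    rw [h0] at this
    exact Finset.mem_singleton.1 this
  · intro x hx hxz
    exact (hmem _).2 ⟨_, (hpar x ((hmem x).1 hx) hxz).1.1⟩
  · intro x hx hxz
    exact (hpar x ((hmem x).1 hx) hxz).2
  · intro x hx hxz
    exact (hpar x ((hmem x).1 hx) hxz).1.2.symm
  · intro x hx y hy hxy
    have h1 := bfs_lev_mem ((hmem x).1 hx)
    have h2 : y ∈ bfsBall G Z z (bfsLev G Z z x + 1) := by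
      rw [bfs_succ, mem_union, mem_filter]
      exact Or.inr ⟨hy, x, h1, hxy⟩
    exact ⟨(hmem y).2 ⟨_, h2⟩, bfs_lev_le h2⟩

end Pool.Agent.Lib.MP_d31508_co.Asy
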