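import Pool.Agent.Lib.MP_d31508_co.Asy.Stmts

/-!
# Project AS, module Compl: translation to the complement
-/

namespace Pool.Agent.Lib.MP_d31508_co.Asy

open Finset Classical

variable {n : ℕ}

lemma compl_ncard_eq_dg (G : SimpleGraph (Fin n)) (S : Finset (Fin n))
    (v : Fin n) : {w | w ∈ S ∧ G.Adj v w}.ncard = dg G S v := by
  unfold dg
  rw [← Set.ncard_coe_finset]
  congr 1
  ext w
  simp

lemma compl_dg_compl (G : SimpleGraph (Fin n))
    (S : Finset (Fin n)) (v : Fin n) (hv : v ∈ S) : dg G S v + dg Gᶜ S v + 1 = S.card := by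
  unfold dg
  rw [← card_union_of_disjoint]
  · have hcard : ∀ X : Finset (Fin n), X = S.erase v → X.card + 1 = S.card := by
      intro X hX
      rw [hX]
      exact card_erase_add_one hv
    apply hcard
    ext w
    simp only [mem_union, mem_filter, mem_erase, SimpleGraph.compl_adj]
    constructor
    · rintro (⟨h1, h2⟩ | ⟨h1, h2, -⟩)
      · exact ⟨(G.ne_of_adj h2).symm, h1⟩
      · exact ⟨fun h => h2 h.symm, h1⟩
    · rintro ⟨h1, h2⟩
      by_cases h : G.Adj v w
      · exact Or.inl ⟨h2, h⟩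
      · exact Or.inr ⟨h2, fun he => h1 he.symm, h⟩
  · rw [disjoint_left]
    intro w h1 h2
    simp only [mem_filter, SimpleGraph.compl_adj] at h1 h2
    exact h2.2.2 h1.2

lemma compl_D_univ (G : SimpleGraph (Fin n)) :
    D G univ = 2 * G.edgeSet.ncard := by
  have h := G.sum_degrees_eq_twice_card_edges
  have h2 : G.edgeSet.ncard = G.edgeFinset.card := by
    rw [← SimpleGraph.coe_edgeFinset, Set.ncard_coe_finset]
  rw [h2, ← h]
  unfold D
  apply sum_congr rfl
  intro v _
  unfold dg
  rw [← SimpleGraph.card_neighborFinset_eq_degree, SimpleGraph.neighborFinset_eq_filter]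

lemma compl_D_compl (G : SimpleGraph (Fin n)) :
    D G univ + D Gᶜ univ + n = n * n := by
  unfold D
  rw [← sum_add_distrib]
  have h : ∀ v ∈ (univ : Finset (Fin n)), dg G univ v + dg Gᶜ univ v + 1 = n := by
    intro v hv
    have := compl_dg_compl G univ v hv
    rw [card_univ, Fintype.card_fin] at this
    exact this
  have h2 : ∑ v ∈ (univ : Finset (Fin n)), (dg G univ v + dg Gᶜ univ v + 1) = n * n := by
    rw [sum_congr rfl h, sum_const, card_univ, Fintype.card_fin, smul_eq_mul]
  rw [sum_add_distrib (f := fun v => dg G univ v + dg Gᶜ univ v), sum_const, card_univ,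
    Fintype.card_fin, smul_eq_mul, mul_one] at h2
  exact h2

/-- a set which is not closed contains a vertex with at most one neighbour in it -/
lemma compl_not_cl (H : SimpleGraph (Fin n)) (S : Finset (Fin n)) (h : ¬ Cl H S) :
    ∃ v ∈ S, dg H S v ≤ 1 := by
  unfold Cl at h
  push Not at h
  obtain ⟨v, hv, h1⟩ := h
  exact ⟨v, hv, by omega⟩

/-- If `H` has no closed `(k+2)`-set, its complement has `P_k`. -/
lemma compl_hasP (k : ℕ) (H : SimpleGraph (Fin n))
    (h : ∀ S : Finset (Fin n), S.card = k + 2 → ¬ Cl H S) : HasP k Hᶜ := by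
  intro S hS
  obtain ⟨v, hv, hv1⟩ := compl_not_cl H S (h S hS)
  refine ⟨v, hv, ?_⟩
  rw [compl_ncard_eq_dg]
  have := compl_dg_compl H S v hv
  omega

/-- If `G` has `P_k`, `k ≥ 1`, its complement has no closed `(k+2)`-set. -/
lemma compl_hasP' (k : ℕ) (G : SimpleGraph (Fin n)) (hG : HasP k G)
    (S : Finset (Fin n)) (hS : S.card = k + 2) : ¬ Cl Gᶜ S := by
  intro hc
  obtain ⟨v, hv, hv1⟩ := hG S hS
  rw [compl_ncard_eq_dg] at hv1
  have h1 := compl_dg_compl G S v hv
  have h2 := hc v hv
  omega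

theorem stCompl : StCompl := by
  intro n k hk
  constructor
  · intro H h
    have h1 : f n k ≤ Hᶜ.edgeSet.ncard := Nat.sInf_le ⟨Hᶜ, compl_hasP k H h, rfl⟩
    have h2 := compl_D_univ Hᶜ
    have h3 := compl_D_compl H
    omega
  · have hne : {e | ∃ G : SimpleGraph (Fin n), HasP k G ∧ G.edgeSet.ncard = e}.Nonempty := by
      refine ⟨_, (⊥ : SimpleGraph (Fin n))ᶜ, compl_hasP k ⊥ ?_, rfl⟩
      intro S hS hc
      have : S.Nonempty := by
        rw [← card_pos]; omega
      obtain ⟨v, hv⟩ := this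
      have h1 := hc v hv
      unfold dg at h1
      simp at h1
    obtain ⟨G, hG, hGf⟩ := Nat.sInf_mem hne
    refine ⟨Gᶜ, fun S hS => compl_hasP' k G hG S hS, ?_⟩
    have h2 := compl_D_univ G
    have h3 := compl_D_compl G
    have h4 : f n k = G.edgeSet.ncard := hGf.symm
    omega

end Pool.Agent.Lib.MP_d31508_co.Asy
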