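import Pool.Agent.Lib.MP_d31508_co.Asy.Stmts

/-!
Module Core: subsets of large minimum degree.
-/

set_option autoImplicit false

namespace Pool.Agent.Lib.MP_d31508_co.Asy

open Finset Classical

set_option linter.unusedSectionVars false

variable {V : Type} [Fintype V]

theorem core_dg_erase (G : SimpleGraph V) {W : Finset V} {x : V} (hx : x ∈ W) (y : V) :
    dg G W y = dg G (W.erase x) y + if G.Adj y x then 1 else 0 := by
  unfold dg
  conv_lhs => rw [← insert_erase hx, filter_insert]
  split_ifs with h
  · rw [card_insert_of_notMem (by simp)]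
  · simp

theorem core_D_erase (G : SimpleGraph V) {W : Finset V} {x : V} (hx : x ∈ W) :
    D G (W.erase x) + 2 * dg G W x = D G W := by
  have h1 : D G W = dg G W x + ∑ y ∈ W.erase x, dg G W y := by
    unfold D
    exact (add_sum_erase W (fun y => dg G W y) hx).symm
  have h2 : ∑ y ∈ W.erase x, dg G W y
      = D G (W.erase x) + ∑ y ∈ W.erase x, (if G.Adj y x then 1 else 0) := by
    unfold D
    rw [← sum_add_distrib]
    exact sum_congr rfl fun y _ => core_dg_erase G hx y
  have h3 : ∑ y ∈ W.erase x, (if G.Adj y x then 1 else 0) = dg G W x := by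
    rw [← card_filter]
    unfold dg
    congr 1
    ext y
    simp only [mem_filter, mem_erase]
    constructor
    · rintro ⟨⟨-, h⟩, h'⟩
      exact ⟨h, h'.symm⟩
    · rintro ⟨h, h'⟩
      exact ⟨⟨h'.ne', h⟩, h'.symm⟩
  omega

theorem core_dg_le (G : SimpleGraph V) {W : Finset V} {x : V} (hx : x ∈ W) :
    dg G W x ≤ W.card - 1 := by
  unfold dg
  rw [← card_erase_of_mem hx]
  refine card_le_card fun y hy => ?_
  rw [mem_filter] at hy
  exact mem_erase.2 ⟨hy.2.ne', hy.1⟩

theorem core_D_le (G : SimpleGraph V) (W : Finset V) : D G W ≤ W.card * (W.card - 1) := by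
  unfold D
  refine (sum_le_card_nsmul _ _ (W.card - 1) fun x hx => core_dg_le G hx).trans ?_
  simp

theorem stCore : StCore := by
  intro V _ G d m h
  obtain ⟨W, -, hW⟩ := exists_max_image (univ : Finset (Finset V))
    (fun W => (D G W : ℤ) - 2 * d * (W.card : ℤ)) ⟨∅, mem_univ _⟩
  refine ⟨W, ?_, fun x hx => ?_⟩
  · by_contra hlt
    push Not at hlt
    have h1 := hW univ (mem_univ _)
    have h2 := core_D_le G W
    have h3 : W.card * (W.card - 1) ≤ (m - 1) * (m - 2) :=
      Nat.mul_le_mul (by omega) (by omega)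
    simp only [card_univ] at h1
    have h4 : ((m - 1) * (m - 2) + 2 * d * Fintype.card V : ℕ) < (D G univ : ℤ) := by
      exact_mod_cast h
    push_cast at h4
    have h5 : (D G W : ℤ) ≤ ((m - 1) * (m - 2) : ℕ) := by exact_mod_cast h2.trans h3
    have h6 : (0 : ℤ) ≤ 2 * d * (W.card : ℤ) := by positivity
    push_cast at h5
    linarith
  · have h1 := hW (W.erase x) (mem_univ _)
    have h2 := core_D_erase G hx
    have h3 : (W.erase x).card + 1 = W.card := card_erase_add_one hx
    have h4 : ((W.erase x).card : ℤ) + 1 = W.card := by exact_mod_cast h3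
    have h5 : (D G (W.erase x) : ℤ) + 2 * dg G W x = D G W := by exact_mod_cast h2
    rw [← h4, ← h5] at h1
    have : (d : ℤ) ≤ dg G W x := by nlinarith
    exact_mod_cast this

theorem stSub : StSub := by
  intro V _ G q X hX hq hD
  obtain ⟨Y, hY, hmax⟩ := exists_max_image (X.powerset.filter fun Y => Y.Nonempty)
    (fun W => (D G W : ℤ) - 2 * q * (W.card : ℤ))
    ⟨X, mem_filter.2 ⟨mem_powerset.2 (Subset.refl _), hX⟩⟩
  rw [mem_filter, mem_powerset] at hY
  refine ⟨Y, hY.1, hY.2, fun x hx => ?_⟩
  have h0 : (0 : ℤ) ≤ (D G Y : ℤ) - 2 * q * (Y.card : ℤ) := by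
    refine le_trans ?_ (hmax X (mem_filter.2 ⟨mem_powerset.2 (Subset.refl _), hX⟩))
    have : ((2 * q * X.card : ℕ) : ℤ) ≤ D G X := by exact_mod_cast hD
    push_cast at this
    linarith
  rcases (Y.erase x).eq_empty_or_nonempty with he | hne
  · exfalso
    have h1 : Y.card = 1 := by
      have := card_erase_add_one hx
      rw [he] at this
      simpa using this.symm
    have h2 := core_D_le G Y
    rw [h1] at h2
    have h3 : D G Y = 0 := by omega
    rw [h3, h1] at h0
    have : (1 : ℤ) ≤ q := by exact_mod_cast hq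
    push_cast at h0
    linarith
  · have h1 := hmax (Y.erase x) (mem_filter.2 ⟨mem_powerset.2 ((erase_subset _ _).trans hY.1), hne⟩)
    have h2 := core_D_erase G hx
    have h3 : (Y.erase x).card + 1 = Y.card := card_erase_add_one hx
    have h4 : ((Y.erase x).card : ℤ) + 1 = Y.card := by exact_mod_cast h3
    have h5 : (D G (Y.erase x) : ℤ) + 2 * dg G Y x = D G Y := by exact_mod_cast h2
    rw [← h4, ← h5] at h1
    have : (q : ℤ) ≤ dg G Y x := by nlinarith
    exact_mod_cast this

end Pool.Agent.Lib.MP_d31508_co.Asy
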