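import Pool.Agent.Lib.MP_d31508_co.Asy.Stmts

/-!
# Project AS, module Final: the numerical part
-/

namespace Pool.Agent.Lib.MP_d31508_co.Asy

open Finset Classical

namespace FinalAux

lemma choose_two_real (a : ℕ) : ((a.choose 2 : ℕ) : ℝ) = (a : ℝ) * (a - 1) / 2 := by
  rw [Nat.cast_choose_two]

/-- upper bound for the number of edges of a graph without closed `m`-set -/
lemma upper (hC : StCore) (hM : StMain) (n m κ R : ℕ) (H : SimpleGraph (Fin n))
    (hκ : 2 ≤ κ) (hV : n < κ ^ (R + 1)) (hm : 26 * R + 60 ≤ m)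
    (hH : ∀ S : Finset (Fin n), S.card = m → ¬ Cl H S) :
    D H univ ≤ (m - 1) * (m - 2) + 2 * (138 * κ + 4) * n := by
  by_contra hc
  push Not at hc
  obtain ⟨W, hW, hdeg⟩ := hC (Fin n) H (138 * κ + 4) m (by rwa [Fintype.card_fin])
  obtain ⟨S, -, hS, hScl⟩ := hM (Fin n) H W m κ R hκ (by rwa [Fintype.card_fin]) hm hW hdeg
  exact hH S hS hScl

end FinalAux

open FinalAux

theorem stFinal (h1 : StCore) (h2 : StMain) (h3 : StGlue) (h4 : StCompl) : StFinal := by
  intro n k hk hn
  have hn4 : 4 ≤ n := by omega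
  have hnR : (0 : ℝ) < n := by exact_mod_cast (by omega : 0 < n)
  have hn1R : (1 : ℝ) ≤ n := by exact_mod_cast (by omega : 1 ≤ n)
  have hkR : (2 : ℝ) ≤ k := by exact_mod_cast hk
  have hnkR : 2 * (k : ℝ) ≤ n := by exact_mod_cast hn
  obtain ⟨hle, H, hH, hHe⟩ := h4 n k (by omega)
  have hm0 : (0 : ℝ) < (k : ℝ) + 2 := by linarith
  constructor
  · -- lower bound for the deficiency
    obtain ⟨⟨H1, hH1, hD1⟩, hG⟩ := h3 n (k + 2) (by omega) (by omega)
    have a1 := hle H1 hH1
    have e1 : k + 2 - 1 = k + 1 := by omega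
    have e2 : k + 2 - 2 = k := by omega
    simp only [e1, e2] at hD1
    -- first lower bound
    have b1 : (f n k : ℝ) + (k + 1).choose 2 + ((n : ℝ) - (k + 1)) ≤ n.choose 2 := by
      rw [choose_two_real, choose_two_real]
      have c1 : 2 * f n k + ((k + 1) * k + 2 * (n - (k + 1))) + n ≤ n * n := by
        generalize (k + 1) * k = u at hD1 ⊢
        omega
      have c2 : 2 * (f n k : ℝ) + (((k : ℝ) + 1) * k + 2 * ((n : ℝ) - (k + 1))) + n ≤ n * n := by
        have := c1
        have e3 : ((n - (k + 1) : ℕ) : ℝ) = (n : ℝ) - (k + 1) := by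
          rw [Nat.cast_sub (by omega)]; push_cast; ring
        rw [← e3]
        exact_mod_cast c1
      push_cast
      nlinarith [c2]
    by_cases hcase : 2 * 2 ^ (k + 2) ≤ n - (k + 1)
    · -- large n
      set n' := n - (k + 1) with hn'
      set x : ℝ := ((n' : ℝ) / 2) ^ (1 / ((k : ℝ) + 2)) with hx
      have hn'R : (2 : ℝ) * 2 ^ (k + 2) ≤ n' := by exact_mod_cast hcase
      have hx2 : 2 ≤ x := by
        have : (2 : ℝ) = ((2 : ℝ) ^ ((k : ℝ) + 2)) ^ (1 / ((k : ℝ) + 2)) := by
          rw [← Real.rpow_mul (by norm_num), mul_one_div_cancel hm0.ne', Real.rpow_one]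
        rw [hx]
        nth_rewrite 1 [this]
        apply Real.rpow_le_rpow (by positivity) _ (by positivity)
        have e4 : (2 : ℝ) ^ ((k : ℝ) + 2) = 2 ^ (k + 2) := by
          rw [← Real.rpow_natCast]; push_cast; rfl
        rw [e4]; linarith
      set Δ := ⌊x⌋₊ with hΔ
      have hΔ2 : 2 ≤ Δ := Nat.le_floor (by exact_mod_cast hx2)
      have hΔx : (Δ : ℝ) ≤ x := Nat.floor_le (by linarith)
      have hΔx' : x < Δ + 1 := Nat.lt_floor_add_one x
      have hpow : 2 * Δ ^ (k + 2) ≤ n - (k + 2 - 1) := by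
        rw [e1, ← hn']
        have c3 : (Δ : ℝ) ^ (k + 2) ≤ (n' : ℝ) / 2 := by
          calc (Δ : ℝ) ^ (k + 2) ≤ x ^ (k + 2) := pow_le_pow_left₀ (by positivity) hΔx _
            _ = (n' : ℝ) / 2 := by
              rw [hx, ← Real.rpow_natCast, ← Real.rpow_mul (by positivity)]
              push_cast
              rw [one_div_mul_cancel hm0.ne', Real.rpow_one]
        have c4 : 2 * (Δ : ℝ) ^ (k + 2) ≤ n' := by linarith
        exact_mod_cast c4
      obtain ⟨H2, hH2, hD2⟩ := hG Δ hΔ2 hpow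
      have a2 := hle H2 hH2
      simp only [e1, e2, ← hn'] at hD2
      have b2 : (f n k : ℝ) + (k + 1).choose 2 + (n' : ℝ) * Δ / 4 ≤ n.choose 2 := by
        rw [choose_two_real, choose_two_real]
        have c2 : 4 * (f n k : ℝ) + (2 * (((k : ℝ) + 1) * k) + n' * Δ) + 2 * n ≤ 2 * (n * n) := by
          have c1 : 4 * f n k + (2 * ((k + 1) * k) + n' * Δ) + 2 * n ≤ 2 * (n * n) := by
            generalize (k + 1) * k = u at hD2 ⊢
            generalize n' * Δ = v at hD2 ⊢
            omega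
          exact_mod_cast c1
        push_cast
        nlinarith [c2]
      refine le_trans ?_ b2
      have key : (1 / 32 : ℝ) * (n : ℝ) ^ (1 + 1 / ((k : ℝ) + 2)) ≤ (n' : ℝ) * Δ / 4 := by
        have d1 : x ≤ (3 / 2) * Δ := by
          have : (2 : ℝ) ≤ Δ := by exact_mod_cast hΔ2
          linarith
        have d2 : (n : ℝ) ≤ 2 * n' := by
          have e9 : k + 2 < 2 ^ (k + 2) := Nat.lt_two_pow_self
          have : n ≤ 2 * n' := by omega
          exact_mod_cast this
        have hn'0 : (0 : ℝ) < n' := by linarith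
        have d3 : (n : ℝ) ^ (1 / ((k : ℝ) + 2)) ≤ 2 * x := by
          have e5 : (n : ℝ) ≤ 4 * ((n' : ℝ) / 2) := by linarith
          calc (n : ℝ) ^ (1 / ((k : ℝ) + 2)) ≤ (4 * ((n' : ℝ) / 2)) ^ (1 / ((k : ℝ) + 2)) :=
                Real.rpow_le_rpow hnR.le e5 (by positivity)
            _ = (4 : ℝ) ^ (1 / ((k : ℝ) + 2)) * x := by
                rw [Real.mul_rpow (by norm_num) (by positivity)]
            _ ≤ 2 * x := by
                apply mul_le_mul_of_nonneg_right _ (by linarith)
                calc (4 : ℝ) ^ (1 / ((k : ℝ) + 2)) ≤ (4 : ℝ) ^ (1 / 2 : ℝ) :=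
                      Real.rpow_le_rpow_of_exponent_le (by norm_num)
                        (one_div_le_one_div_of_le (by norm_num) (by linarith))
                  _ = 2 := by
                      rw [show (4 : ℝ) = 2 ^ (2 : ℝ) by norm_num, ← Real.rpow_mul (by norm_num)]
                      norm_num
        rw [Real.rpow_add hnR, Real.rpow_one]
        have d4 : (n : ℝ) * (n : ℝ) ^ (1 / ((k : ℝ) + 2)) ≤ (2 * n') * (2 * ((3 / 2) * Δ)) := by
          apply mul_le_mul d2 (d3.trans (by linarith)) (by positivity) (by positivity)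
        nlinarith [d4]
      linarith
    · -- moderate n
      push Not at hcase
      refine le_trans ?_ b1
      have d1 : (n : ℝ) ^ (1 / ((k : ℝ) + 2)) ≤ 8 := by
        have e6 : (n : ℝ) ≤ (8 : ℝ) ^ ((k : ℝ) + 2) := by
          have e7 : (8 : ℝ) ^ ((k : ℝ) + 2) = ((8 ^ (k + 2) : ℕ) : ℝ) := by
            push_cast
            rw [← Real.rpow_natCast]
            push_cast
            rfl
          rw [e7]
          have e8 : n ≤ 8 ^ (k + 2) := by
            have e9 : k + 2 < 2 ^ (k + 2) := Nat.lt_two_pow_self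
            have e10 : (8 : ℕ) ^ (k + 2) = 2 ^ (k + 2) * 4 ^ (k + 2) := by
              rw [← mul_pow]; norm_num
            have e11 : 4 ≤ 4 ^ (k + 2) := Nat.le_self_pow (by omega) 4
            have e12 : 2 ^ (k + 2) * 4 ≤ 2 ^ (k + 2) * 4 ^ (k + 2) := Nat.mul_le_mul_left _ e11
            omega
          exact_mod_cast e8
        calc (n : ℝ) ^ (1 / ((k : ℝ) + 2)) ≤ ((8 : ℝ) ^ ((k : ℝ) + 2)) ^ (1 / ((k : ℝ) + 2)) :=
              Real.rpow_le_rpow hnR.le e6 (by positivity)
          _ = 8 := by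
              rw [← Real.rpow_mul (by norm_num), mul_one_div_cancel hm0.ne', Real.rpow_one]
      rw [Real.rpow_add hnR, Real.rpow_one]
      have d2 : (n : ℝ) * (n : ℝ) ^ (1 / ((k : ℝ) + 2)) ≤ n * 8 :=
        mul_le_mul_of_nonneg_left d1 hnR.le
      have d3 : (4 : ℝ) ≤ n := by exact_mod_cast hn4
      have d4 : (n : ℝ) / 4 ≤ (n : ℝ) - (k + 1) := by linarith
      linarith
  · -- upper bound for the deficiency
    by_cases hk60 : k + 2 < 60
    · -- trivial bound
      have e1 : (1 : ℝ) ≤ 86 / ((k : ℝ) + 2) := by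
        rw [le_div_iff₀ hm0]
        have : (k : ℝ) + 2 < 60 := by exact_mod_cast hk60
        linarith
      have e2 : (n : ℝ) * n ≤ (n : ℝ) ^ (1 + 86 / ((k : ℝ) + 2)) := by
        rw [Real.rpow_add hnR, Real.rpow_one]
        apply mul_le_mul_of_nonneg_left _ hnR.le
        calc (n : ℝ) = (n : ℝ) ^ (1 : ℝ) := (Real.rpow_one _).symm
          _ ≤ _ := Real.rpow_le_rpow_of_exponent_le hn1R e1
      have e3 : ((n.choose 2 : ℕ) : ℝ) ≤ n * n := by
        rw [choose_two_real]; nlinarith
      have e4 : (0 : ℝ) ≤ f n k := Nat.cast_nonneg _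
      have e5 : (0 : ℝ) ≤ ((k + 1).choose 2 : ℕ) := Nat.cast_nonneg _
      nlinarith
    · push Not at hk60
      set R := (k + 2 - 60) / 26 with hR
      have hRm : 26 * R + 60 ≤ k + 2 := by omega
      have hR1 : (0 : ℝ) < (R : ℝ) + 1 := by positivity
      set x : ℝ := (n : ℝ) ^ (1 / ((R : ℝ) + 1)) with hx
      have hx1 : 1 ≤ x := Real.one_le_rpow hn1R (by positivity)
      set κ := ⌊x⌋₊ + 1 with hκ
      have hκ2 : 2 ≤ κ := by
        have : 1 ≤ ⌊x⌋₊ := Nat.le_floor (by exact_mod_cast hx1)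
        omega
      have hκx : x < κ := by rw [hκ]; exact_mod_cast Nat.lt_floor_add_one x
      have hκx2 : (κ : ℝ) ≤ 2 * x := by
        have := Nat.floor_le (by linarith : 0 ≤ x)
        rw [hκ]; push_cast; linarith
      have hnκ : n < κ ^ (R + 1) := by
        have e1 : (n : ℝ) < (κ : ℝ) ^ (R + 1) := by
          calc (n : ℝ) = x ^ (R + 1) := by
                rw [hx, ← Real.rpow_natCast, ← Real.rpow_mul hnR.le]
                push_cast
                rw [one_div_mul_cancel hR1.ne', Real.rpow_one]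
            _ < (κ : ℝ) ^ (R + 1) := pow_lt_pow_left₀ hκx (by linarith) (by omega)
        exact_mod_cast e1
      have a1 := upper h1 h2 n (k + 2) κ R H hκ2 hnκ hRm hH
      have e1 : k + 2 - 1 = k + 1 := by omega
      have e2 : k + 2 - 2 = k := by omega
      rw [e1, e2] at a1
      have a2 : (n : ℝ) * n ≤ 2 * f n k + ((k : ℝ) + 1) * k + 2 * (138 * κ + 4) * n + n := by
        have c1 : n * n ≤ 2 * f n k + (k + 1) * k + 2 * (138 * κ + 4) * n + n := by
          rw [← hHe]; omega
        exact_mod_cast c1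
      have a3 : (138 * (κ : ℝ) + 4) * n ≤ 300 * (n * x) := by
        have c2 : (2 : ℝ) ≤ κ := by exact_mod_cast hκ2
        have c3 : 138 * (κ : ℝ) + 4 ≤ 300 * x := by linarith
        calc (138 * (κ : ℝ) + 4) * n ≤ (300 * x) * n := mul_le_mul_of_nonneg_right c3 hnR.le
          _ = 300 * (n * x) := by ring
      have a4 : (n : ℝ) * x ≤ (n : ℝ) ^ (1 + 86 / ((k : ℝ) + 2)) := by
        rw [Real.rpow_add hnR, Real.rpow_one]
        apply mul_le_mul_of_nonneg_left _ hnR.le
        apply Real.rpow_le_rpow_of_exponent_le hn1R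
        rw [div_le_div_iff₀ hR1 hm0]
        have c1 : k + 2 ≤ 86 * (R + 1) := by omega
        have c2 : (k : ℝ) + 2 ≤ 86 * (R + 1) := by exact_mod_cast c1
        linarith
      rw [choose_two_real, choose_two_real]
      push_cast
      nlinarith [a2, a3, a4]

end Pool.Agent.Lib.MP_d31508_co.Asy
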