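import Pool.Agent.Lib.MP_d31508_co.Asy.Stmts

/-!
# Project AS (MP_d31508_co), module Flex

A small closed set `F` and three vertices outside it with two neighbours in it.
-/

namespace Pool.Agent.Lib.MP_d31508_co.Asy

open Finset Classical

lemma flex_dg_mono {V : Type} [Fintype V] (G : SimpleGraph V) {X Y : Finset V} (h : X ⊆ Y)
    (x : V) : dg G X x ≤ dg G Y x :=
  Finset.card_le_card (Finset.filter_subset_filter _ h)

/-- growing a set to a closed one, paying `2 R + 3` for each missing degree -/
lemma flex_grow (h : StAug) {V : Type} [Fintype V] (G : SimpleGraph V) (W : Finset V)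
    (b R : ℕ) (hb : 2 ≤ b) (hW : ∀ x ∈ W, b + 1 ≤ dg G W x)
    (hV : Fintype.card V < b ^ (R + 1)) :
    ∀ n, ∀ A : Finset V, A ⊆ W → ∑ x ∈ A, (2 - dg G A x) ≤ n →
      ∃ F : Finset V, A ⊆ F ∧ F ⊆ W ∧ Cl G F ∧ F.card ≤ A.card + (2 * R + 3) * n := by
  intro n
  induction n with
  | zero =>
    intro A hA hs
    refine ⟨A, subset_rfl, hA, ?_, by omega⟩
    intro x hx
    have h0 := (Finset.sum_eq_zero_iff.1 (Nat.le_zero.1 hs)) x hx
    omega
  | succ n ih =>
    intro A hA hs
    by_cases hcl : Cl G A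
    · exact ⟨A, subset_rfl, hA, hcl, by omega⟩
    · unfold Cl at hcl
      push Not at hcl
      obtain ⟨u, hu, hu2⟩ := hcl
      obtain ⟨w, hw, hwA, hadj⟩ : ∃ w ∈ W, w ∉ A ∧ G.Adj u w := by
        by_contra hc
        push Not at hc
        have h1 : dg G W u ≤ dg G A u := by
          refine Finset.card_le_card ?_
          intro y hy
          rw [Finset.mem_filter] at hy ⊢
          refine ⟨?_, hy.2⟩
          by_contra hyA
          exact hc y hy.1 hyA hy.2
        have h2 := hW u (hA hu)
        omega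
      obtain ⟨X, hX1, hX2, hX3, hX4⟩ := h V G W A w b R hb hW hA hw hwA ⟨u, hu, hadj.symm⟩ hV
      have hdis : Disjoint X A := by
        rw [Finset.disjoint_left]
        intro x hx hxA
        exact (Finset.mem_sdiff.1 (hX1 hx)).2 hxA
      have hsum : ∑ x ∈ X ∪ A, (2 - dg G (X ∪ A) x) < ∑ x ∈ A, (2 - dg G A x) := by
        rw [Finset.sum_union hdis]
        have h0 : ∑ x ∈ X, (2 - dg G (X ∪ A) x) = 0 := by
          refine Finset.sum_eq_zero ?_
          intro x hx
          have := hX4 x hx
          omega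
        rw [h0, Nat.zero_add]
        refine Finset.sum_lt_sum ?_ ⟨u, hu, ?_⟩
        · intro x _
          have := flex_dg_mono G (Finset.subset_union_right : A ⊆ X ∪ A) x
          omega
        · have hlt : dg G A u < dg G (X ∪ A) u := by
            refine Finset.card_lt_card ?_
            rw [Finset.ssubset_iff_of_subset
              (Finset.filter_subset_filter _ Finset.subset_union_right)]
            refine ⟨w, ?_, ?_⟩
            · rw [Finset.mem_filter]
              exact ⟨Finset.mem_union_left _ hX2, hadj⟩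
            · rw [Finset.mem_filter]
              exact fun hh => hwA hh.1
          omega
      obtain ⟨F, hF1, hF2, hF3, hF4⟩ := ih (X ∪ A)
        (Finset.union_subset (hX1.trans Finset.sdiff_subset) hA) (by omega)
      refine ⟨F, Finset.subset_union_right.trans hF1, hF2, hF3, ?_⟩
      have hcard := Finset.card_union_le X A
      rw [Nat.mul_add, Nat.mul_one]
      omega

/-- module Flex -/
theorem stFlex (h : StAug) : StFlex := by
  intro V _ G W b R hb hWne hdeg hV
  obtain ⟨x₀, hx₀⟩ := hWne
  have hWcard : 3 ≤ W.card := by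
    have h1 := hdeg x₀ hx₀
    have h2 : dg G W x₀ ≤ W.card := Finset.card_le_card (Finset.filter_subset _ _)
    omega
  obtain ⟨T, hTW, hT3⟩ := Finset.exists_subset_card_eq hWcard
  have hdeg1 : ∀ x ∈ W, b + 1 ≤ dg G (W \ T) x := by
    intro x hx
    have h1 := hdeg x hx
    have h2 : dg G W x ≤ dg G (W \ T) x + T.card := by
      unfold dg
      refine le_trans (Finset.card_le_card ?_) (Finset.card_union_le _ _)
      intro y hy
      rw [Finset.mem_filter] at hy
      rw [Finset.mem_union, Finset.mem_filter, Finset.mem_sdiff]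
      by_cases hyT : y ∈ T
      · exact Or.inr hyT
      · exact Or.inl ⟨⟨hy.1, hyT⟩, hy.2⟩
    omega
  have hpair : ∀ v, ∃ P : Finset V, v ∈ T → P ⊆ (W \ T).filter (fun y => G.Adj v y) ∧ P.card = 2 := by
    intro v
    by_cases hv : v ∈ T
    · have h1 := hdeg1 v (hTW hv)
      obtain ⟨P, hP1, hP2⟩ := Finset.exists_subset_card_eq
        (show 2 ≤ ((W \ T).filter (fun y => G.Adj v y)).card by unfold dg at h1; omega)
      exact ⟨P, fun _ => ⟨hP1, hP2⟩⟩
    · exact ⟨∅, fun hv' => absurd hv' hv⟩
  choose P hP using hpair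
  have hUW : T.biUnion P ⊆ W \ T := by
    intro y hy
    rw [Finset.mem_biUnion] at hy
    obtain ⟨v, hv, hyv⟩ := hy
    exact (Finset.mem_filter.1 ((hP v hv).1 hyv)).1
  have hUcard : (T.biUnion P).card ≤ 6 := by
    have := Finset.card_biUnion_le_card_mul T P 2 (fun v hv => (hP v hv).2.le)
    omega
  have hpot : ∑ x ∈ T.biUnion P, (2 - dg G (T.biUnion P) x) ≤ 12 := by
    have h1 : ∑ x ∈ T.biUnion P, (2 - dg G (T.biUnion P) x) ≤ (T.biUnion P).card * 2 := by
      rw [← smul_eq_mul]
      exact Finset.sum_le_card_nsmul _ _ _ (fun x _ => Nat.sub_le _ _)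
    omega
  obtain ⟨F, hF1, hF2, hF3, hF4⟩ := flex_grow h G (W \ T) b R hb
    (fun x hx => hdeg1 x (Finset.mem_sdiff.1 hx).1) hV 12 _ hUW hpot
  refine ⟨T, F, hTW, hT3, hF2, hF3, by omega, ?_⟩
  intro v hv
  have h1 : (P v).card ≤ dg G F v := by
    refine Finset.card_le_card ?_
    intro y hy
    rw [Finset.mem_filter]
    exact ⟨hF1 (Finset.mem_biUnion.2 ⟨v, hv, hy⟩), (Finset.mem_filter.1 ((hP v hv).1 hy)).2⟩
  rw [(hP v hv).2] at h1
  exact h1

end Pool.Agent.Lib.MP_d31508_co.Asy
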