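import Pool.Agent.Lib.MP_d31508_co.Asy.Stmts

/-!
# Project AS (MP_d31508_co), module Gadget

Closed sets of all sizes up to an error of three in a long window.
-/

namespace Pool.Agent.Lib.MP_d31508_co.Asy

open Finset Classical

/-- iterating the parent map goes down one level per step -/
lemma gadget_par_iter {V : Type} [Fintype V] {G : SimpleGraph V} {Z : Finset V} {z : V}
    (T : Bfs G Z z) (x : V) (hx : x ∈ T.C) :
    ∀ t, t ≤ T.lev x → T.par^[t] x ∈ T.C ∧ T.lev (T.par^[t] x) + t = T.lev x := by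
  intro t
  induction t with
  | zero => intro _; exact ⟨hx, rfl⟩
  | succ t ih =>
    intro ht
    obtain ⟨h1, h2⟩ := ih (by omega)
    rw [Function.iterate_succ_apply']
    have hne : T.par^[t] x ≠ z := by
      intro h
      rw [h, T.lev_root] at h2
      omega
    refine ⟨T.par_mem _ h1 hne, ?_⟩
    have := T.par_lev _ h1 hne
    omega

/-- the common part of the two cases: a path whose vertices number `s * a` lie on level `i` -/
lemma gadget_core (h4 : StWord) (h5 : StArc) {V : Type} [Fintype V] (G : SimpleGraph V)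
    (Z : Finset V) (z : V) (T : Bfs G Z z) (R r s N i : ℕ) (p : ℕ → V)
    (hs1 : 1 ≤ s) (hs2 : s ≤ 2) (hi : i ≤ R + 1) (hN : 1 ≤ N)
    (hrN : ∀ j, s * j ≤ s + r + 3 → 2 * j ≤ N + 1)
    (hC : ∀ t ≤ s * N, p t ∈ T.C ∧ i ≤ T.lev (p t))
    (hlev : ∀ a ≤ N, T.lev (p (s * a)) = i)
    (hinj : ∀ a ≤ s * N, ∀ b ≤ s * N, p a = p b → a = b)
    (hadj : ∀ t < s * N, G.Adj (p t) (p (t + 1))) :
    ∃ σ, σ ≤ 2 * R + 4 ∧ ∀ y, σ ≤ y → y ≤ σ + r + 3 →
      ∃ Γ : Finset V, Γ ⊆ Z ∧ Cl G Γ ∧ y ≤ Γ.card + 3 ∧ Γ.card ≤ y := by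
  have hsN : ∀ a ≤ N, s * a ≤ s * N := fun a ha => Nat.mul_le_mul_left s ha
  have h01 : p (s * 0) ≠ p (s * 1) := by
    intro h
    have := hinj _ (hsN 0 (Nat.zero_le _)) _ (hsN 1 hN) h
    omega
  have hi1 : 1 ≤ i := by
    by_contra hc
    have hi0 : i = 0 := by omega
    apply h01
    have e0 := T.lev_zero _ (hC _ (hsN 0 (Nat.zero_le _))).1 (by rw [hlev 0 (Nat.zero_le _), hi0])
    have e1 := T.lev_zero _ (hC _ (hsN 1 hN)).1 (by rw [hlev 1 hN, hi0])
    rw [e0, e1]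
  have hz : ∀ a ≤ N, T.par^[i] (p (s * a)) = z := by
    intro a ha
    obtain ⟨g1, g2⟩ := gadget_par_iter T _ (hC _ (hsN a ha)).1 i (by rw [hlev a ha])
    rw [hlev a ha] at g2
    exact T.lev_zero _ g1 (by omega)
  have hall : ∃ t, 1 ≤ t ∧ ∀ a ≤ N, T.par^[t] (p (s * a)) = T.par^[t] (p (s * 0)) :=
    ⟨i, hi1, fun a ha => by rw [hz a ha, hz 0 (Nat.zero_le _)]⟩
  obtain ⟨h, ⟨hh1, hhall⟩, hhmin⟩ : ∃ h, (1 ≤ h ∧ ∀ a ≤ N, T.par^[h] (p (s * a)) =
      T.par^[h] (p (s * 0))) ∧ ∀ t, t < h → ¬ (1 ≤ t ∧ ∀ a ≤ N, T.par^[t] (p (s * a)) =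
      T.par^[t] (p (s * 0))) :=
    ⟨Nat.find hall, Nat.find_spec hall, fun t ht => Nat.find_min hall ht⟩
  have hhi : h ≤ i := by
    by_contra hc
    exact hhmin i (by omega) ⟨hi1, fun a ha => by rw [hz a ha, hz 0 (Nat.zero_le _)]⟩
  -- the colours
  have hdiff : ∃ a, a + 1 ≤ N ∧ T.par^[h - 1] (p (s * a)) ≠ T.par^[h - 1] (p (s * (a + 1))) := by
    by_contra hc
    push Not at hc
    have hconst : ∀ a ≤ N, T.par^[h - 1] (p (s * a)) = T.par^[h - 1] (p (s * 0)) := by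
      intro a
      induction a with
      | zero => intro _; rfl
      | succ a ih =>
        intro ha
        rw [← hc a ha]
        exact ih (by omega)
    by_cases hh : h = 1
    · subst hh
      have := hconst 1 hN
      simp only [Nat.sub_self, Function.iterate_zero, id_eq] at this
      exact h01 this.symm
    · exact hhmin (h - 1) (by omega) ⟨by omega, hconst⟩
  -- closed sets from colours at distance `j`
  have harc : ∀ a j, 1 ≤ j → a + j ≤ N →
      T.par^[h - 1] (p (s * a)) ≠ T.par^[h - 1] (p (s * (a + j))) →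
      ∃ Γ : Finset V, Γ ⊆ Z ∧ Cl G Γ ∧ Γ.card = 2 * h + s * j := by
    intro a j hj haj hne
    have hle : s * a + s * j ≤ s * N := by
      rw [← Nat.mul_add]; exact hsN _ haj
    refine h5 V G Z z T i h (s * j) (fun t => p (s * a + t)) hh1 hhi
      (Nat.mul_pos hs1 hj) ?_ ?_ ?_ ?_ ?_ ?_ ?_
    · intro t ht
      exact hC _ (by omega)
    · show T.lev (p (s * a + 0)) = i
      rw [Nat.add_zero]; exact hlev a (by omega)
    · show T.lev (p (s * a + s * j)) = i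
      rw [← Nat.mul_add]; exact hlev _ haj
    · intro b hb c hc hbc
      have := hinj (s * a + b) (by omega) (s * a + c) (by omega) hbc
      omega
    · intro t ht
      exact hadj (s * a + t) (by omega)
    · show T.par^[h - 1] (p (s * a + 0)) ≠ T.par^[h - 1] (p (s * a + s * j))
      rw [Nat.add_zero, ← Nat.mul_add]; exact hne
    · show T.par^[h] (p (s * a + 0)) = T.par^[h] (p (s * a + s * j))
      rw [Nat.add_zero, ← Nat.mul_add, hhall a (by omega), hhall (a + j) haj]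
  refine ⟨2 * h + s, by omega, ?_⟩
  intro y hy1 hy2
  obtain ⟨j, k, hk, hjk⟩ : ∃ j k, k < s ∧ y = 2 * h + (s * j + k) := by
    refine ⟨(y - 2 * h) / s, (y - 2 * h) % s, Nat.mod_lt _ (by omega), ?_⟩
    have := Nat.div_add_mod (y - 2 * h) s
    omega
  have hj1 : 1 ≤ j := by
    by_contra hc
    have : j = 0 := by omega
    subst this
    rw [Nat.mul_zero] at hjk
    omega
  have h2j : 2 * j ≤ N + 1 := hrN j (by omega)
  by_cases hj : j = 1
  · subst hj
    obtain ⟨a, ha, hne⟩ := hdiff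
    obtain ⟨Γ, hΓ1, hΓ2, hΓ3⟩ := harc a 1 le_rfl ha hne
    exact ⟨Γ, hΓ1, hΓ2, by omega, by omega⟩
  · obtain ⟨j, rfl⟩ : ∃ j', j = j' + 1 := ⟨j - 1, by omega⟩
    rw [Nat.mul_add, Nat.mul_one] at hjk
    rcases h4 V N j (fun a => T.par^[h - 1] (p (s * a))) (by omega) (by omega) hdiff with
      ⟨a, ha, hne⟩ | ⟨a, ha, hne⟩
    · obtain ⟨Γ, hΓ1, hΓ2, hΓ3⟩ := harc a j (by omega) ha hne
      exact ⟨Γ, hΓ1, hΓ2, by omega, by omega⟩
    · obtain ⟨Γ, hΓ1, hΓ2, hΓ3⟩ := harc a (j + 1) (by omega) ha hne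
      rw [Nat.mul_add, Nat.mul_one] at hΓ3
      exact ⟨Γ, hΓ1, hΓ2, by omega, by omega⟩

/-- module Gadget -/
theorem stGadget (h1 : StBfs) (h2 : StBand) (h3 : StPath) (h4 : StWord) (h5 : StArc) :
    StGadget := by
  intro V _ G Z κ R r hκ hZ hdeg hV hr hgirth
  obtain ⟨z, hz⟩ := hZ
  obtain ⟨T⟩ := h1 V G Z z hz
  obtain ⟨i, hi, hcase⟩ := h2 V G Z z T κ R 23 hκ (by norm_num)
    (fun x hx => by have := hdeg x hx; omega) hV
  rcases hcase with ⟨Y, hYne, hYlev, hYdeg⟩ | ⟨Y₀, Y₁, hne, hlev0, hlev1, hdeg0, hdeg1⟩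
  · -- one dense layer
    obtain ⟨p, hp1, hp2, hp3⟩ := h3 V G Y 22 r hr hYne (fun x hx => hYdeg x hx)
      (fun Y' hY' hne' hcl => hgirth Y' (fun x hx => T.sub (hYlev x (hY' hx)).1) hne' hcl)
    refine gadget_core h4 h5 G Z z T R r 1 (22 * (r - 2) + 1) i p le_rfl (by norm_num) hi
      (by omega) (fun j hj => by omega) ?_ ?_ ?_ ?_
    · intro t ht
      rw [Nat.one_mul] at ht
      obtain ⟨g1, g2⟩ := hYlev _ (hp1 t ht)
      exact ⟨g1, g2.ge⟩
    · intro a ha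
      rw [Nat.one_mul]
      exact (hYlev _ (hp1 a ha)).2
    · intro a ha b hb hab
      rw [Nat.one_mul] at ha hb
      exact hp2 a ha b hb hab
    · intro t ht
      rw [Nat.one_mul] at ht
      exact hp3 t (by omega)
  · -- two dense consecutive layers
    obtain ⟨H, hHdef⟩ : ∃ H : SimpleGraph V, ∀ x y, H.Adj x y ↔
        (G.Adj x y ∧ ((x ∈ Y₀ ∧ y ∈ Y₁) ∨ (x ∈ Y₁ ∧ y ∈ Y₀))) :=
      ⟨{ Adj := fun x y => G.Adj x y ∧ ((x ∈ Y₀ ∧ y ∈ Y₁) ∨ (x ∈ Y₁ ∧ y ∈ Y₀))
         symm := ⟨fun x y h => ⟨h.1.symm, by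
          rcases h.2 with h | h
          exacts [Or.inr ⟨h.2, h.1⟩, Or.inl ⟨h.2, h.1⟩]⟩⟩
         loopless := ⟨fun x h => G.loopless.irrefl x h.1⟩ }, fun x y => Iff.rfl⟩
    have hdisj : ∀ x, x ∈ Y₀ → x ∈ Y₁ → False := by
      intro x hx0 hx1
      have e0 := (hlev0 x hx0).2
      have e1 := (hlev1 x hx1).2
      omega
    have hdegH : ∀ x ∈ Y₀ ∪ Y₁, 22 + 1 ≤ dg H (Y₀ ∪ Y₁) x := by
      intro x hx
      rcases Finset.mem_union.1 hx with hx | hx
      · refine le_trans (hdeg0 x hx) (Finset.card_le_card ?_)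
        intro y hy
        rw [Finset.mem_filter] at hy ⊢
        exact ⟨Finset.mem_union_right _ hy.1, (hHdef x y).2 ⟨hy.2, Or.inl ⟨hx, hy.1⟩⟩⟩
      · refine le_trans (hdeg1 x hx) (Finset.card_le_card ?_)
        intro y hy
        rw [Finset.mem_filter] at hy ⊢
        exact ⟨Finset.mem_union_left _ hy.1, (hHdef x y).2 ⟨hy.2, Or.inr ⟨hx, hy.1⟩⟩⟩
    have hsubZ : Y₀ ∪ Y₁ ⊆ Z := by
      intro x hx
      rcases Finset.mem_union.1 hx with hx | hx
      · exact T.sub (hlev0 x hx).1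
      · exact T.sub (hlev1 x hx).1
    obtain ⟨p, hp1, hp2, hp3⟩ := h3 V H (Y₀ ∪ Y₁) 22 r hr
      (hne.mono Finset.subset_union_left) hdegH (by
        intro Y' hY' hne' hcl
        refine hgirth Y' (hY'.trans hsubZ) hne' ?_
        intro x hx
        refine le_trans (hcl x hx) (Finset.card_le_card ?_)
        intro y hy
        rw [Finset.mem_filter] at hy ⊢
        exact ⟨hy.1, ((hHdef x y).1 hy.2).1⟩)
    have hstep0 : ∀ t ≤ 22 * (r - 2), p t ∈ Y₀ → p (t + 1) ∈ Y₁ := by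
      intro t ht h
      rcases ((hHdef _ _).1 (hp3 t ht)).2 with h' | h'
      · exact h'.2
      · exact (hdisj _ h h'.1).elim
    have hstep1 : ∀ t ≤ 22 * (r - 2), p t ∈ Y₁ → p (t + 1) ∈ Y₀ := by
      intro t ht h
      rcases ((hHdef _ _).1 (hp3 t ht)).2 with h' | h'
      · exact (hdisj _ h'.1 h).elim
      · exact h'.2
    obtain ⟨e, he1, he2⟩ : ∃ e, e ≤ 1 ∧ p e ∈ Y₀ := by
      rcases Finset.mem_union.1 (hp1 0 (Nat.zero_le _)) with h | h
      · exact ⟨0, Nat.zero_le _, h⟩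
      · exact ⟨1, le_rfl, hstep1 0 (Nat.zero_le _) h⟩
    have heven : ∀ a ≤ 11 * (r - 2), p (e + 2 * a) ∈ Y₀ := by
      intro a
      induction a with
      | zero => intro _; exact he2
      | succ a ih =>
        intro ha
        have g1 := hstep0 _ (by omega) (ih (by omega))
        have g2 := hstep1 _ (by omega) g1
        have : e + 2 * (a + 1) = e + 2 * a + 1 + 1 := by ring
        rw [this]
        exact g2
    refine gadget_core h4 h5 G Z z T R r 2 (11 * (r - 2)) i (fun t => p (e + t)) (by norm_num)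
      le_rfl hi (by omega) (fun j hj => by omega) ?_ ?_ ?_ ?_
    · intro t ht
      rcases Finset.mem_union.1 (hp1 (e + t) (by omega)) with h | h
      · obtain ⟨g1, g2⟩ := hlev0 _ h
        exact ⟨g1, g2.ge⟩
      · obtain ⟨g1, g2⟩ := hlev1 _ h
        exact ⟨g1, by rw [g2]; omega⟩
    · intro a ha
      exact (hlev0 _ (heven a ha)).2
    · intro a ha b hb hab
      have := hp2 (e + a) (by omega) (e + b) (by omega) hab
      omega
    · intro t ht
      exact ((hHdef _ _).1 (hp3 (e + t) (by omega))).1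

end Pool.Agent.Lib.MP_d31508_co.Asy
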