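import Pool.Agent.Lib.MP_d31508_co.Asy.Stmts

/-!
# Project AS, modules Peel and Girth

`stPeel`: a vertex set in which one vertex has degree at least one and all others at least two
contains a nonempty closed set. `stGirth`: an edge-maximal graph with maximum degree at most `Δ`
and no closed set of size at most `m` has at least `n Δ / 4` edges.
-/

namespace Pool.Agent.Lib.MP_d31508_co.Asy

open Finset Classical

theorem girth_dg_mono {V : Type} [Fintype V] (G : SimpleGraph V) {X Y : Finset V} (h : X ⊆ Y)
    (x : V) : dg G X x ≤ dg G Y x :=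
  card_le_card (filter_subset_filter _ h)

theorem stPeel : StPeel := by
  intro V _ G C x hx h1 h2
  obtain ⟨n, hn⟩ : ∃ n, C.card = n := ⟨_, rfl⟩
  induction n generalizing C x with
  | zero => have := Finset.card_pos.2 ⟨x, hx⟩; omega
  | succ n ih =>
    by_cases h : 2 ≤ dg G C x
    · refine ⟨C, subset_rfl, ⟨x, hx⟩, fun y hy => ?_⟩
      by_cases e : y = x
      · subst e; exact h
      · exact h2 y hy e
    · have hd : dg G C x = 1 := by omega
      obtain ⟨x1, hx1⟩ := Finset.card_eq_one.1 hd
      have hm : x1 ∈ C ∧ G.Adj x x1 := by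
        have : x1 ∈ C.filter (fun y => G.Adj x y) := by rw [hx1]; simp
        simpa using this
      have hne : x1 ≠ x := fun e => G.ne_of_adj hm.2 e.symm
      have hEr : ∀ y, dg G C y ≤ dg G (C.erase x) y + 1 := by
        intro y
        have : C.filter (fun z => G.Adj y z) ⊆ insert x ((C.erase x).filter (fun z => G.Adj y z)) := by
          intro z hz
          simp only [mem_filter, mem_insert, mem_erase] at hz ⊢
          by_cases e : z = x
          · exact Or.inl e
          · exact Or.inr ⟨⟨e, hz.1⟩, hz.2⟩
        exact (card_le_card this).trans (card_insert_le _ _)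
      obtain ⟨Y, hY1, hY2, hY3⟩ := ih (C.erase x) x1 (mem_erase.2 ⟨hne, hm.1⟩)
        (by have := hEr x1; have := h2 x1 hm.1 hne; omega)
        (by
          intro y hy hy1
          have hyC := (mem_erase.1 hy).2
          have hyx := (mem_erase.1 hy).1
          have hnadj : ¬ G.Adj y x := by
            intro ha
            have : y ∈ C.filter (fun y => G.Adj x y) := by simp [hyC, ha.symm]
            rw [hx1] at this
            exact hy1 (by simpa using this)
          have : C.filter (fun z => G.Adj y z) ⊆ (C.erase x).filter (fun z => G.Adj y z) := by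
            intro z hz
            simp only [mem_filter, mem_erase] at hz ⊢
            refine ⟨⟨?_, hz.1⟩, hz.2⟩
            rintro rfl
            exact hnadj hz.2
          exact (h2 y hyC hyx).trans (card_le_card this))
        (by rw [card_erase_of_mem hx, hn]; rfl)
      exact ⟨Y, hY1.trans (erase_subset _ _), hY2, hY3⟩

/-- vertices reachable from `x` by a walk of length exactly `t` -/
noncomputable def girthS {V : Type} [Fintype V] (G : SimpleGraph V) (x : V) : ℕ → Finset V
  | 0 => {x}
  | t + 1 => (girthS G x t).biUnion (fun y => univ.filter (fun z => G.Adj y z))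

theorem girthS_card {V : Type} [Fintype V] (G : SimpleGraph V) (x : V) (Δ : ℕ)
    (h : ∀ y, dg G univ y ≤ Δ) (t : ℕ) : (girthS G x t).card ≤ Δ ^ t := by
  induction t with
  | zero => simp [girthS]
  | succ t ih =>
    rw [girthS, pow_succ]
    calc _ ≤ (girthS G x t).card * Δ := card_biUnion_le_card_mul _ _ _ (fun y _ => h y)
      _ ≤ _ := Nat.mul_le_mul_right _ ih

theorem girth_lev {V : Type} [Fintype V] (G : SimpleGraph V) (Z : Finset V) (x : V)
    (T : Bfs G Z x) (l : ℕ) : ∀ y ∈ T.C, T.lev y = l →
      l + 1 ≤ (T.C.filter (fun z => T.lev z ≤ l)).card ∧ y ∈ girthS G x l := by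
  induction l with
  | zero =>
    intro y hy hl
    refine ⟨?_, ?_⟩
    · exact card_pos.2 ⟨y, by simp [hy, hl]⟩
    · have := T.lev_zero y hy hl
      simp [girthS, this]
  | succ l ih =>
    intro y hy hl
    have hne : y ≠ x := by
      rintro rfl
      have := T.lev_root
      omega
    have hp := T.par_mem y hy hne
    have hpl := T.par_lev y hy hne
    obtain ⟨h1, h2⟩ := ih (T.par y) hp (by omega)
    refine ⟨?_, ?_⟩
    · have : insert y (T.C.filter (fun z => T.lev z ≤ l)) ⊆
          T.C.filter (fun z => T.lev z ≤ l + 1) := by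
        intro z hz
        simp only [mem_insert, mem_filter] at hz ⊢
        rcases hz with rfl | hz
        · exact ⟨hy, by omega⟩
        · exact ⟨hz.1, by omega⟩
      have h3 := card_le_card this
      rw [card_insert_of_notMem (by simp; intro _; omega)] at h3
      omega
    · simp only [girthS, mem_biUnion, mem_filter, mem_univ, true_and]
      exact ⟨T.par y, h2, (T.par_adj y hy hne).symm⟩

/-- the graph `G` with the edge `xy` added -/
def girthAdd {V : Type} (G : SimpleGraph V) (x y : V) (hxy : x ≠ y) : SimpleGraph V where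
  Adj a b := G.Adj a b ∨ (a = x ∧ b = y) ∨ (a = y ∧ b = x)
  symm := ⟨by
    intro a b h
    rcases h with h | ⟨h1, h2⟩ | ⟨h1, h2⟩
    · exact Or.inl h.symm
    · exact Or.inr (Or.inr ⟨h2, h1⟩)
    · exact Or.inr (Or.inl ⟨h2, h1⟩)⟩
  loopless := ⟨by
    intro a h
    rcases h with h | ⟨h1, h2⟩ | ⟨h1, h2⟩
    · exact G.ne_of_adj h rfl
    · exact hxy (h1.symm.trans h2)
    · exact hxy (h2.symm.trans h1)⟩

theorem girth_geom (Δ : ℕ) (h : 2 ≤ Δ) (m : ℕ) : ∑ t ∈ range m, Δ ^ t + 1 ≤ Δ ^ m := by
  induction m with
  | zero => simp
  | succ m ih =>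
    rw [sum_range_succ, pow_succ]
    nlinarith [pow_pos (show 0 < Δ by omega) m]

theorem girth_add_closed {V : Type} [Fintype V] (h1 : StBfs) (G : SimpleGraph V) (m : ℕ)
    (hG : ∀ Y : Finset V, Y.Nonempty → Cl G Y → m < Y.card) (x y : V) (hxy : x ≠ y)
    (Y : Finset V) (hYn : Y.Nonempty) (hY : Cl (girthAdd G x y hxy) Y) (hYm : Y.card ≤ m) :
    ∃ l < m, y ∈ girthS G x l := by
  -- degrees of the new graph
  have hother : ∀ v, v ≠ x → v ≠ y → dg (girthAdd G x y hxy) Y v = dg G Y v := by
    intro v hvx hvy
    unfold dg
    congr 1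
    ext z
    simp [girthAdd, hvx, hvy]
  have hx1 : dg (girthAdd G x y hxy) Y x ≤ dg G Y x + 1 := by
    have : Y.filter (fun z => (girthAdd G x y hxy).Adj x z) ⊆
        insert y (Y.filter (fun z => G.Adj x z)) := by
      intro z hz
      simp only [mem_filter, mem_insert, girthAdd] at hz ⊢
      rcases hz with ⟨hz, h | ⟨_, h⟩ | ⟨h, _⟩⟩
      · exact Or.inr ⟨hz, h⟩
      · exact Or.inl h
      · exact absurd h hxy
    exact (card_le_card this).trans (card_insert_le _ _)
  have hxY : x ∈ Y ∧ y ∈ Y := by
    by_contra hno
    have : Cl G Y := by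
      intro v hv
      refine (hY v hv).trans (card_le_card ?_)
      intro z hz0
      have hz := (mem_filter.1 hz0).1
      have ha : G.Adj v z ∨ (v = x ∧ z = y) ∨ (v = y ∧ z = x) := (mem_filter.1 hz0).2
      rw [mem_filter]
      rcases ha with h | ⟨h, h'⟩ | ⟨h, h'⟩
      · exact ⟨hz, h⟩
      · subst h; subst h'; exact absurd ⟨hv, hz⟩ hno
      · subst h; subst h'; exact absurd ⟨hz, hv⟩ hno
    have := hG Y hYn this
    omega
  obtain ⟨T⟩ := h1 V G Y x hxY.1
  by_cases hyC : y ∈ T.C
  · obtain ⟨h2, h3⟩ := girth_lev G Y x T (T.lev y) y hyC rfl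
    refine ⟨T.lev y, ?_, h3⟩
    have := card_le_card (filter_subset (fun z => T.lev z ≤ T.lev y) T.C)
    have := card_le_card T.sub
    omega
  · exfalso
    have hsub : ∀ v ∈ T.C, dg G Y v ≤ dg G T.C v := by
      intro v hv
      apply card_le_card
      intro z hz
      simp only [mem_filter] at hz ⊢
      exact ⟨(T.nb v hv z hz.1 hz.2).1, hz.2⟩
    obtain ⟨Z, hZ1, hZ2, hZ3⟩ := stPeel V G T.C x T.root
      (by have := hsub x T.root; have := hY x hxY.1; omega)
      (by
        intro v hv hvx
        have hvy : v ≠ y := fun e => hyC (e ▸ hv)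
        have h4 := hsub v hv
        have h5 := hY v (T.sub hv)
        rw [hother v hvx hvy] at h5
        omega)
    have := hG Z hZ2 hZ3
    have := card_le_card (hZ1.trans T.sub)
    omega

theorem stGirth (h1 : StBfs) : StGirth := by
  intro n m Δ hm hΔ hn
  set P : Set (SimpleGraph (Fin n)) :=
    {G | (∀ Y : Finset (Fin n), Y.Nonempty → Cl G Y → m < Y.card) ∧ ∀ x, dg G univ x ≤ Δ} with hP
  have hbot : (⊥ : SimpleGraph (Fin n)) ∈ P := by
    refine ⟨?_, ?_⟩
    · rintro Y ⟨y, hy⟩ hc
      have := hc y hy
      simp [dg] at this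
    · intro x
      simp [dg]
  obtain ⟨G, hGP, hGmax⟩ := (Set.toFinite P).exists_maximal ⟨_, hbot⟩
  refine ⟨G, hGP.1, ?_⟩
  set LOW : Finset (Fin n) := univ.filter (fun x => dg G univ x < Δ) with hLOW
  have hlow : LOW.card ≤ Δ ^ m := by
    rcases LOW.eq_empty_or_nonempty with h0 | ⟨x, hx⟩
    · rw [h0]; simp
    have hxl : dg G univ x < Δ := by simpa [hLOW] using hx
    have key : ∀ y ∈ LOW, y ≠ x → ¬ G.Adj x y → ∃ l < m, y ∈ girthS G x l := by
      intro y hy hyx hadj
      have hyl : dg G univ y < Δ := by simpa [hLOW] using hy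
      have hle : G ≤ girthAdd G x y hyx.symm := fun a b h => Or.inl h
      have hnotP : girthAdd G x y hyx.symm ∉ P := by
        intro hin
        have h2 := hGmax hin hle
        exact hadj (h2 (Or.inr (Or.inl ⟨rfl, rfl⟩)))
      have hdeg : ∀ v, dg (girthAdd G x y hyx.symm) univ v ≤ Δ := by
        intro v
        by_cases hvx : v = x
        · subst hvx
          have : univ.filter (fun z => (girthAdd G v y hyx.symm).Adj v z) ⊆
              insert y (univ.filter (fun z => G.Adj v z)) := by
            intro z hz
            have ha : G.Adj v z ∨ (v = v ∧ z = y) ∨ (v = y ∧ z = v) := (mem_filter.1 hz).2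
            rw [mem_insert, mem_filter]
            rcases ha with h | ⟨_, h⟩ | ⟨h, _⟩
            · exact Or.inr ⟨mem_univ _, h⟩
            · exact Or.inl h
            · exact absurd h hyx.symm
          have := (card_le_card this).trans (card_insert_le _ _)
          unfold dg at hxl ⊢
          omega
        by_cases hvy : v = y
        · subst hvy
          have : univ.filter (fun z => (girthAdd G x v hyx.symm).Adj v z) ⊆
              insert x (univ.filter (fun z => G.Adj v z)) := by
            intro z hz
            have ha : G.Adj v z ∨ (v = x ∧ z = v) ∨ (v = v ∧ z = x) := (mem_filter.1 hz).2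
            rw [mem_insert, mem_filter]
            rcases ha with h | ⟨h, _⟩ | ⟨_, h⟩
            · exact Or.inr ⟨mem_univ _, h⟩
            · exact absurd h hyx
            · exact Or.inl h
          have := (card_le_card this).trans (card_insert_le _ _)
          unfold dg at hyl ⊢
          omega
        · have : dg (girthAdd G x y hyx.symm) univ v = dg G univ v := by
            unfold dg
            congr 1
            ext z
            simp [girthAdd, hvx, hvy]
          rw [this]
          exact hGP.2 v
      have : ∃ Y : Finset (Fin n), Y.Nonempty ∧ Cl (girthAdd G x y hyx.symm) Y ∧ Y.card ≤ m := by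
        by_contra hno
        push Not at hno
        exact hnotP ⟨hno, hdeg⟩
      obtain ⟨Y, hY1, hY2, hY3⟩ := this
      exact girth_add_closed h1 G m hGP.1 x y hyx.symm Y hY1 hY2 hY3
    have hgeom := girth_geom Δ hΔ m
    rcases Nat.lt_or_ge m 2 with hm2 | hm2
    · have hm1 : m = 1 := by omega
      have hsub : LOW ⊆ insert x (univ.filter (fun z => G.Adj x z)) := by
        intro y hy
        simp only [mem_insert, mem_filter, mem_univ, true_and]
        by_contra hno
        push Not at hno
        obtain ⟨l, hl, hyl⟩ := key y hy hno.1 hno.2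
        have : l = 0 := by omega
        subst this
        simp [girthS] at hyl
        exact hno.1 hyl
      have := (card_le_card hsub).trans (card_insert_le _ _)
      unfold dg at hxl
      rw [hm1, pow_one]
      omega
    · have hsub : LOW ⊆ (range m).biUnion (girthS G x) := by
        intro y hy
        simp only [mem_biUnion, mem_range]
        by_cases e : y = x
        · exact ⟨0, by omega, by simp [girthS, e]⟩
        by_cases ha : G.Adj x y
        · exact ⟨1, by omega, by simp [girthS, ha]⟩
        · exact key y hy e ha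
      calc LOW.card ≤ ((range m).biUnion (girthS G x)).card := card_le_card hsub
        _ ≤ ∑ t ∈ range m, (girthS G x t).card := card_biUnion_le
        _ ≤ ∑ t ∈ range m, Δ ^ t := sum_le_sum (fun t _ => girthS_card G x Δ hGP.2 t)
        _ ≤ Δ ^ m := by omega
  -- counting
  have hD : (univ \ LOW).card * Δ ≤ D G univ := by
    unfold D
    calc (univ \ LOW).card * Δ = ∑ _x ∈ univ \ LOW, Δ := by simp
      _ ≤ ∑ x ∈ univ \ LOW, dg G univ x := by
        apply sum_le_sum
        intro x hx
        simp [hLOW] at hx
        exact hx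
      _ ≤ ∑ x, dg G univ x := sum_le_sum_of_subset (subset_univ _)
  have hc : (univ \ LOW).card = n - LOW.card := by
    rw [card_sdiff_of_subset (subset_univ _), card_univ, Fintype.card_fin]
  rw [hc] at hD
  have h3 : n ≤ 2 * (n - LOW.card) := by omega
  nlinarith

end Pool.Agent.Lib.MP_d31508_co.Asy
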