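import Pool.Agent.Lib.MP_d31508_co.Asy.Stmts

/-!
# Project AS (MP_d31508_co), module Glue

Lower bound graphs: a clique with pendant vertices, and a clique next to a graph without small
closed sets.
-/

namespace Pool.Agent.Lib.MP_d31508_co.Asy

open Finset Classical

/-- a set of `k + 2` vertices of `Fin (k + 1 + n)` has a vertex of the second block -/
lemma glue_exists_big (k n : ℕ) (S : Finset (Fin (k + 1 + n))) (hS : S.card = k + 2) :
    ∃ j : Fin n, Fin.natAdd (k + 1) j ∈ S := by
  by_contra hc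
  push Not at hc
  have hsub : S ⊆ (univ : Finset (Fin (k + 1))).map (Fin.castAddEmb n) := by
    intro a ha
    rw [Finset.mem_map]
    induction a using Fin.addCases with
    | left i => exact ⟨i, Finset.mem_univ _, rfl⟩
    | right j => exact absurd ha (hc j)
  have h1 := Finset.card_le_card hsub
  rw [Finset.card_map, Finset.card_univ, Fintype.card_fin] at h1
  omega

/-- the clique vertices have degree at least `k` -/
lemma glue_clique_deg (k n : ℕ) (H : SimpleGraph (Fin (k + 1 + n)))
    (hH : ∀ i j : Fin (k + 1), i ≠ j → H.Adj (Fin.castAdd n i) (Fin.castAdd n j))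
    (i : Fin (k + 1)) : k ≤ dg H univ (Fin.castAdd n i) := by
  have hsub : ((univ : Finset (Fin (k + 1))).erase i).map (Fin.castAddEmb n) ⊆
      univ.filter (fun y => H.Adj (Fin.castAdd n i) y) := by
    intro y hy
    rw [Finset.mem_map] at hy
    obtain ⟨j, hj, rfl⟩ := hy
    rw [Finset.mem_filter]
    exact ⟨Finset.mem_univ _, hH i j (Finset.ne_of_mem_erase hj).symm⟩
  have h1 := Finset.card_le_card hsub
  rw [Finset.card_map, Finset.card_erase_of_mem (Finset.mem_univ _), Finset.card_univ,
    Fintype.card_fin] at h1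
  exact h1

lemma glue_part1 (k n : ℕ) : ∃ H : SimpleGraph (Fin (k + 1 + n)),
    (∀ S : Finset (Fin (k + 1 + n)), S.card = k + 2 → ¬ Cl H S) ∧
      (k + 1) * k + 2 * n ≤ D H univ := by
  obtain ⟨H, hH⟩ : ∃ H : SimpleGraph (Fin (k + 1 + n)), ∀ x y, H.Adj x y ↔
      (x ≠ y ∧ ((x.val < k + 1 ∧ y.val < k + 1) ∨ x.val = 0 ∨ y.val = 0)) :=
    ⟨{ Adj := fun x y => x ≠ y ∧ ((x.val < k + 1 ∧ y.val < k + 1) ∨ x.val = 0 ∨ y.val = 0)
       symm := ⟨fun x y h => ⟨h.1.symm, by
        rcases h.2 with h | h | h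
        exacts [Or.inl ⟨h.2, h.1⟩, Or.inr (Or.inr h), Or.inr (Or.inl h)]⟩⟩
       loopless := ⟨fun x h => h.1 rfl⟩ }, fun x y => Iff.rfl⟩
  refine ⟨H, ?_, ?_⟩
  · intro S hS hcl
    obtain ⟨j, hj⟩ := glue_exists_big k n S hS
    have h1 := hcl _ hj
    have h2 : dg H S (Fin.natAdd (k + 1) j) ≤ 1 := by
      unfold dg
      rw [Finset.card_le_one]
      have key : ∀ a ∈ S.filter (fun y => H.Adj (Fin.natAdd (k + 1) j) y), a.val = 0 := by
        intro a ha
        rw [Finset.mem_filter] at ha
        rcases ((hH _ _).1 ha.2).2 with h | h | h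
        · have := h.1
          rw [Fin.val_natAdd] at this
          omega
        · rw [Fin.val_natAdd] at h
          omega
        · exact h
      intro a ha b hb
      apply Fin.ext
      rw [key a ha, key b hb]
    omega
  · unfold D
    rw [Fin.sum_univ_add, Fin.sum_univ_succ]
    have h0 : k + n ≤ dg H univ (Fin.castAdd n (0 : Fin (k + 1))) := by
      have hsub : (univ : Finset (Fin (k + 1 + n))).erase (Fin.castAdd n (0 : Fin (k + 1))) ⊆
          univ.filter (fun y => H.Adj (Fin.castAdd n (0 : Fin (k + 1))) y) := by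
        intro y hy
        rw [Finset.mem_filter]
        refine ⟨Finset.mem_univ _, (hH _ _).2 ⟨(Finset.ne_of_mem_erase hy).symm, Or.inr (Or.inl ?_)⟩⟩
        simp
      have h1 := Finset.card_le_card hsub
      rw [Finset.card_erase_of_mem (Finset.mem_univ _), Finset.card_univ, Fintype.card_fin] at h1
      unfold dg
      omega
    have h1 : k * k ≤ ∑ i : Fin k, dg H univ (Fin.castAdd n (Fin.succ i)) := by
      have := Finset.card_nsmul_le_sum (univ : Finset (Fin k))
        (fun i => dg H univ (Fin.castAdd n (Fin.succ i))) k (fun i _ => glue_clique_deg k n H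
          (fun a b hab => (hH _ _).2 ⟨fun h => hab (Fin.castAdd_injective _ _ h),
            Or.inl ⟨by rw [Fin.val_castAdd]; exact a.isLt, by rw [Fin.val_castAdd]; exact b.isLt⟩⟩) _)
      rwa [Finset.card_univ, Fintype.card_fin, smul_eq_mul] at this
    have h2 : n * 1 ≤ ∑ j : Fin n, dg H univ (Fin.natAdd (k + 1) j) := by
      have := Finset.card_nsmul_le_sum (univ : Finset (Fin n))
        (fun j => dg H univ (Fin.natAdd (k + 1) j)) 1 (fun j _ => by
          refine Finset.card_pos.2 ⟨Fin.castAdd n (0 : Fin (k + 1)), ?_⟩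
          rw [Finset.mem_filter]
          refine ⟨Finset.mem_univ _, (hH _ _).2 ⟨?_, Or.inr (Or.inr (by simp))⟩⟩
          intro h
          have := congrArg Fin.val h
          rw [Fin.val_natAdd, Fin.val_castAdd] at this
          simp at this)
      rwa [Finset.card_univ, Fintype.card_fin, smul_eq_mul] at this
    have h3 : (k + 1) * k = k * k + k := by ring
    rw [h3]
    omega

lemma glue_part2 (h : StGirth) (k n Δ : ℕ) (hΔ : 2 ≤ Δ) (hn : 2 * Δ ^ (k + 2) ≤ n) :
    ∃ H : SimpleGraph (Fin (k + 1 + n)),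
    (∀ S : Finset (Fin (k + 1 + n)), S.card = k + 2 → ¬ Cl H S) ∧
      2 * ((k + 1) * k) + n * Δ ≤ 2 * D H univ := by
  obtain ⟨G, hG1, hG2⟩ := h n (k + 2) Δ (by omega) hΔ hn
  obtain ⟨H, hH⟩ : ∃ H : SimpleGraph (Fin (k + 1 + n)), ∀ x y, H.Adj x y ↔
      (x ≠ y ∧ ((x.val < k + 1 ∧ y.val < k + 1) ∨
        ∃ i j : Fin n, x = Fin.natAdd (k + 1) i ∧ y = Fin.natAdd (k + 1) j ∧ G.Adj i j)) :=
    ⟨{ Adj := fun x y => x ≠ y ∧ ((x.val < k + 1 ∧ y.val < k + 1) ∨
        ∃ i j : Fin n, x = Fin.natAdd (k + 1) i ∧ y = Fin.natAdd (k + 1) j ∧ G.Adj i j)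
       symm := ⟨fun x y h => ⟨h.1.symm, by
        rcases h.2 with h | ⟨i, j, h1, h2, h3⟩
        exacts [Or.inl ⟨h.2, h.1⟩, Or.inr ⟨j, i, h2, h1, h3.symm⟩]⟩⟩
       loopless := ⟨fun x h => h.1 rfl⟩ }, fun x y => Iff.rfl⟩
  refine ⟨H, ?_, ?_⟩
  · intro S hS hcl
    obtain ⟨j₀, hj₀⟩ := glue_exists_big k n S hS
    have hS' : Cl G ((univ : Finset (Fin n)).filter (fun i => Fin.natAdd (k + 1) i ∈ S)) := by
      intro i hi
      rw [Finset.mem_filter] at hi
      refine le_trans (hcl _ hi.2) ?_
      unfold dg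
      have hsub : S.filter (fun y => H.Adj (Fin.natAdd (k + 1) i) y) ⊆
          (((univ : Finset (Fin n)).filter (fun i => Fin.natAdd (k + 1) i ∈ S)).filter
            (fun y => G.Adj i y)).image (Fin.natAdd (k + 1)) := by
        intro y hy
        rw [Finset.mem_filter] at hy
        rcases ((hH _ _).1 hy.2).2 with h | ⟨a, b, h1, h2, h3⟩
        · have := h.1
          rw [Fin.val_natAdd] at this
          omega
        · have ha : i = a := Fin.natAdd_injective _ _ h1
          subst ha
          rw [Finset.mem_image]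
          refine ⟨b, ?_, h2.symm⟩
          rw [Finset.mem_filter, Finset.mem_filter]
          exact ⟨⟨Finset.mem_univ _, h2 ▸ hy.1⟩, h3⟩
      exact le_trans (Finset.card_le_card hsub) Finset.card_image_le
    have h1 := hG1 _ ⟨j₀, Finset.mem_filter.2 ⟨Finset.mem_univ _, hj₀⟩⟩ hS'
    have h2 : ((univ : Finset (Fin n)).filter (fun i => Fin.natAdd (k + 1) i ∈ S)).card ≤
        S.card := by
      refine Finset.card_le_card_of_injOn (Fin.natAdd (k + 1)) ?_ ?_
      · intro i hi
        exact (Finset.mem_filter.1 (Finset.mem_coe.1 hi)).2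
      · intro a _ b _ hab
        exact Fin.natAdd_injective _ _ hab
    omega
  · have hD : (k + 1) * k + D G univ ≤ D H univ := by
      unfold D
      rw [Fin.sum_univ_add]
      refine Nat.add_le_add ?_ ?_
      · have := Finset.card_nsmul_le_sum (univ : Finset (Fin (k + 1)))
          (fun i => dg H univ (Fin.castAdd n i)) k (fun i _ => glue_clique_deg k n H
            (fun a b hab => (hH _ _).2 ⟨fun h => hab (Fin.castAdd_injective _ _ h),
              Or.inl ⟨by rw [Fin.val_castAdd]; exact a.isLt,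
                by rw [Fin.val_castAdd]; exact b.isLt⟩⟩) _)
        rwa [Finset.card_univ, Fintype.card_fin, smul_eq_mul] at this
      · refine Finset.sum_le_sum ?_
        intro i _
        unfold dg
        refine Finset.card_le_card_of_injOn (Fin.natAdd (k + 1)) ?_ ?_
        · intro j hj
          have hj' := (Finset.mem_filter.1 (Finset.mem_coe.1 hj)).2
          refine Finset.mem_coe.2 (Finset.mem_filter.2 ⟨Finset.mem_univ _, (hH _ _).2 ⟨?_, ?_⟩⟩)
          · intro hc
            exact hj'.ne (Fin.natAdd_injective _ _ hc)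
          · exact Or.inr ⟨i, j, rfl, rfl, hj'⟩
        · intro a _ b _ hab
          exact Fin.natAdd_injective _ _ hab
    omega

/-- module Glue -/
theorem stGlue (h : StGirth) : StGlue := by
  intro n m hm hmn
  obtain ⟨k, rfl⟩ : ∃ k, m = k + 2 := ⟨m - 2, by omega⟩
  obtain ⟨n', rfl⟩ : ∃ n', n = k + 1 + n' := ⟨n - (k + 1), by omega⟩
  have e1 : k + 2 - 1 = k + 1 := by omega
  have e2 : k + 2 - 2 = k := by omega
  have e3 : k + 1 + n' - (k + 1) = n' := by omega
  rw [e1, e2, e3]
  exact ⟨glue_part1 k n', fun Δ hΔ hn => glue_part2 h k n' Δ hΔ hn⟩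

end Pool.Agent.Lib.MP_d31508_co.Asy
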