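import Pool.Agent.Lib.MP_d31508_co.Asy.Stmts

/-!
# Project AS, module Main: the bottleneck chain of closed sets
-/

namespace Pool.Agent.Lib.MP_d31508_co.Asy

open Finset Classical

variable {V : Type} [Fintype V]

namespace MainAux

set_option linter.unusedSectionVars false

lemma dg_mono (G : SimpleGraph V) {X Y : Finset V} (h : X ⊆ Y) (x : V) : dg G X x ≤ dg G Y x := by
  unfold dg
  exact card_le_card (filter_subset_filter _ h)

lemma cl_union (G : SimpleGraph V) {X Y : Finset V} (hX : Cl G X) (hY : Cl G Y) :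
    Cl G (X ∪ Y) := by
  intro x hx
  rcases mem_union.mp hx with h | h
  · exact (hX x h).trans (dg_mono G subset_union_left x)
  · exact (hY x h).trans (dg_mono G subset_union_right x)

lemma cl_empty (G : SimpleGraph V) : Cl G ∅ := by
  intro x hx; simp at hx

/-- adding vertices with two neighbours in a subset -/
lemma cl_add (G : SimpleGraph V) {B F T : Finset V} (hB : Cl G B) (hF : F ⊆ B)
    (hT : ∀ v ∈ T, 2 ≤ dg G F v) : Cl G (B ∪ T) := by
  intro x hx
  rcases mem_union.mp hx with h | h
  · exact (hB x h).trans (dg_mono G subset_union_left x)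
  · exact (hT x h).trans (dg_mono G (hF.trans subset_union_left) x)

lemma dg_union_le (G : SimpleGraph V) (X Y : Finset V) (x : V) :
    dg G (X ∪ Y) x ≤ dg G X x + dg G Y x := by
  unfold dg
  rw [filter_union]
  exact card_union_le _ _

lemma cl_card (G : SimpleGraph V) {Y : Finset V} (hY : Y.Nonempty) (h : Cl G Y) :
    3 ≤ Y.card := by
  obtain ⟨y, hy⟩ := hY
  have h2 := h y hy
  unfold dg at h2
  have h3 : Y.filter (fun w => G.Adj y w) ⊆ Y.erase y := by
    intro w hw
    rw [mem_filter] at hw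
    exact mem_erase.mpr ⟨fun e => by rw [e] at hw; exact G.loopless.irrefl y hw.2, hw.1⟩
  have h4 := card_le_card h3
  rw [card_erase_of_mem hy] at h4
  omega

/-- chains of closed sets with steps at most `r` -/
inductive Reach (G : SimpleGraph V) (W : Finset V) (r : ℕ) (A : Finset V) : Finset V → Prop
  | refl : Reach G W r A A
  | step {B B' : Finset V} : Reach G W r A B → B ⊆ B' → B' ⊆ W → Cl G B' →
      B'.card ≤ B.card + r → Reach G W r A B'

variable {G : SimpleGraph V} {W A B S : Finset V} {r : ℕ}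

lemma Reach.sub (h : Reach G W r A B) : A ⊆ B := by
  induction h with
  | refl => exact Subset.rfl
  | step _ h1 _ _ _ ih => exact ih.trans h1

lemma Reach.cl (h : Reach G W r A B) (hA : Cl G A) : Cl G B := by
  induction h with
  | refl => exact hA
  | step _ _ _ h3 _ _ => exact h3

lemma Reach.subW (h : Reach G W r A B) (hA : A ⊆ W) : B ⊆ W := by
  induction h with
  | refl => exact hA
  | step _ _ h2 _ _ _ => exact h2

lemma Reach.trans {C : Finset V} (h : Reach G W r A B) (h' : Reach G W r B C) :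
    Reach G W r A C := by
  induction h' with
  | refl => exact h
  | step _ h1 h2 h3 h4 ih => exact Reach.step ih h1 h2 h3 h4

lemma Reach.mono {r' : ℕ} (h : Reach G W r A B) (hr : r ≤ r') : Reach G W r' A B := by
  induction h with
  | refl => exact Reach.refl
  | step _ h1 h2 h3 h4 ih => exact Reach.step ih h1 h2 h3 (by omega)

lemma Reach.card_zero (h : Reach G W 0 A B) : B.card = A.card := by
  induction h with
  | refl => rfl
  | step _ h1 _ _ h4 ih =>
    have := card_le_card h1
    omega

lemma Reach.union (h : Reach G W r A B) (hS : Cl G S) (hSW : S ⊆ W)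
    (hAS : A ⊆ S) : Reach G W r S (S ∪ B) := by
  induction h with
  | refl => rw [union_eq_left.mpr hAS]; exact Reach.refl
  | @step B B' h0 h1 h2 h3 h4 ih =>
    refine Reach.step ih (union_subset_union_right h1) (union_subset hSW h2) (cl_union G hS h3) ?_
    have e1 : S ∪ B' = (S ∪ B) ∪ (B' \ B) := by
      rw [union_assoc, union_sdiff_of_subset h1]
    rw [e1]
    refine (card_union_le _ _).trans ?_
    have := card_sdiff_add_card_eq_card h1
    omega

lemma Reach.threshold {t : ℕ} (h : Reach G W r A B) (hA : A.card < t) (hB : t ≤ B.card) :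
    ∃ U, Reach G W r A U ∧ U.card < t ∧ t ≤ U.card + r := by
  induction h with
  | refl => omega
  | @step B B' h0 h1 h2 h3 h4 ih =>
    by_cases hc : t ≤ B.card
    · exact ih hc
    · exact ⟨B, h0, by omega, by omega⟩

lemma Reach.unit {t : ℕ} (h : Reach G W 1 A B) (hA : A.card ≤ t) (hB : t ≤ B.card) :
    ∃ U, Reach G W 1 A U ∧ U.card = t := by
  induction h with
  | refl => exact ⟨A, Reach.refl, by omega⟩
  | @step B B' h0 h1 h2 h3 h4 ih =>
    by_cases hc : t ≤ B.card
    · exact ih hc
    · exact ⟨B', Reach.step h0 h1 h2 h3 h4, by omega⟩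

lemma Reach.floor {x : ℕ} (h : Reach G W r A B) (hA : A.card ≤ x) :
    ∃ U, Reach G W r A U ∧ U ⊆ B ∧ U.card ≤ x ∧ (U = B ∨ x < U.card + r) := by
  induction h with
  | refl => exact ⟨A, Reach.refl, Subset.rfl, hA, Or.inl rfl⟩
  | @step B B' h0 h1 h2 h3 h4 ih =>
    by_cases hc : B'.card ≤ x
    · exact ⟨B', Reach.step h0 h1 h2 h3 h4, Subset.rfl, hc, Or.inl rfl⟩
    · obtain ⟨U, hU1, hU2, hU3, hU4⟩ := ih
      refine ⟨U, hU1, hU2.trans h1, hU3, Or.inr ?_⟩
      rcases hU4 with rfl | h5
      · omega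
      · exact h5

lemma exists_max (P : Finset V → Prop) (h : ∃ A, P A) :
    ∃ A, P A ∧ ∀ B, P B → B.card ≤ A.card := by
  obtain ⟨A0, hA0⟩ := h
  obtain ⟨A, hA, hmax⟩ := exists_max_image (univ.filter (fun A : Finset V => P A)) Finset.card
    ⟨A0, by simp [hA0]⟩
  refine ⟨A, by simpa using hA, fun B hB => hmax B (by simp [hB])⟩

end MainAux

open MainAux

theorem stMain (h1 : StFlex) (h2 : StGadget) : StMain := by
  intro V _ G W m κ R hκ hV hm hW hdeg
  have hκ1 : 1 ≤ κ := by omega
  have hWne : W.Nonempty := card_pos.mp (by omega)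
  obtain ⟨T, F, hTW, hT3, hFW, hF, hFc, hTF⟩ := h1 V G W κ R hκ hWne
    (fun x hx => by have := hdeg x hx; omega) hV
  set W1 := W \ T with hW1
  have hW1c : W1.card + 3 = W.card := by
    have := card_sdiff_add_card_eq_card hTW
    rw [← hW1] at this
    omega
  have hdeg1 : ∀ x ∈ W1, 138 * κ + 1 ≤ dg G W1 x := by
    intro x hx
    have hxW : x ∈ W := (mem_sdiff.mp hx).1
    have e1 : W = W1 ∪ T := by rw [hW1, sdiff_union_of_subset hTW]
    have e2 := hdeg x hxW
    have e3 := dg_union_le G W1 T x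
    rw [← e1] at e3
    have e4 : dg G T x ≤ 3 := by
      unfold dg
      rw [← hT3]
      exact card_filter_le _ _
    omega
  have hW1cl : Cl G W1 := fun x hx => by have := hdeg1 x hx; omega
  obtain ⟨t, ht⟩ : ∃ t, t + 3 = m := ⟨m - 3, by omega⟩
  -- a final step: closed sets containing `F` of size `m - 3 .. m`
  have hfin : ∀ B : Finset V, Cl G B → F ⊆ B → B ⊆ W1 → B.card ≤ m → m ≤ B.card + 3 →
      ∃ S : Finset V, S ⊆ W ∧ S.card = m ∧ Cl G S := by
    intro B hB hFB hBW hB1 hB2
    obtain ⟨T', hT', hT'c⟩ := exists_subset_card_eq (s := T) (n := m - B.card) (by omega)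
    refine ⟨B ∪ T', union_subset (hBW.trans sdiff_subset) (hT'.trans hTW), ?_, ?_⟩
    · rw [card_union_of_disjoint, hT'c]
      · omega
      · exact disjoint_of_subset_left hBW (disjoint_of_subset_right hT' sdiff_disjoint)
    · exact cl_add G hB hFB (fun v hv => hTF v (hT' hv))
  -- the bottleneck
  have hPex : ∃ r, ∃ V', Reach G W1 r F V' ∧ t ≤ V'.card :=
    ⟨W1.card, W1, Reach.step Reach.refl hFW Subset.rfl hW1cl (by omega), by omega⟩
  have hr := Nat.find_spec hPex
  have hrm := fun r' (h : r' < Nat.find hPex) => Nat.find_min hPex h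
  set r := Nat.find hPex with hrdef
  clear_value r
  obtain ⟨V', hV', hV'c⟩ := hr
  have hr1 : 1 ≤ r := by
    by_contra hc
    have hr0 : r = 0 := by omega
    subst hr0
    have := hV'.card_zero
    omega
  obtain ⟨r', rfl⟩ : ∃ r', r = r' + 1 := ⟨r - 1, by omega⟩
  have hnP := hrm r' (by omega)
  obtain ⟨S, hS, hSmax⟩ := exists_max (fun S => Reach G W1 r' F S) ⟨F, Reach.refl⟩
  have hSt : S.card < t := by
    by_contra hc
    exact hnP ⟨S, hS, by omega⟩
  have hScl : Cl G S := hS.cl hF
  have hSW : S ⊆ W1 := hS.subW hFW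
  have hFS : F ⊆ S := hS.sub
  have hch := Reach.union hV' hScl hSW hFS
  obtain ⟨U, hU, hUt, hUt2⟩ := hch.threshold hSt (hV'c.trans (card_le_card subset_union_right))
  have hUcl : Cl G U := hU.cl hScl
  have hUW : U ⊆ W1 := hU.subW hSW
  obtain ⟨U', hU', hU'max⟩ := exists_max (fun S => Reach G W1 1 U S) ⟨U, Reach.refl⟩
  have hU'cl : Cl G U' := hU'.cl hUcl
  have hU'W : U' ⊆ W1 := hU'.subW hUW
  have hSU' : S ⊆ U' := hU.sub.trans hU'.sub
  by_cases hcase : t ≤ U'.card
  · obtain ⟨B, hB, hBc⟩ := hU'.unit (by omega) hcase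
    exact hfin B (hB.cl hUcl) (hFS.trans (hU.sub.trans hB.sub)) (hB.subW hUW) (by omega) (by omega)
  push Not at hcase
  set Z := W1 \ U' with hZ
  have hZne : Z.Nonempty := by
    rw [← card_pos]
    have := card_sdiff_add_card_eq_card hU'W
    rw [← hZ] at this
    omega
  have hU'1 : ∀ x ∈ Z, dg G U' x ≤ 1 := by
    intro x hx
    by_contra hc
    have hx' := mem_sdiff.mp hx
    have hcl : Cl G (insert x U') := by
      intro y hy
      rcases mem_insert.mp hy with rfl | h
      · have : 2 ≤ dg G U' y := by omega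
        exact this.trans (dg_mono G (subset_insert _ _) y)
      · exact (hU'cl y h).trans (dg_mono G (subset_insert _ _) y)
    have h3 := hU'max (insert x U') (Reach.step hU' (subset_insert _ _)
      (insert_subset hx'.1 hU'W) hcl (card_insert_le _ _))
    rw [card_insert_of_notMem hx'.2] at h3
    omega
  have hZdeg : ∀ x ∈ Z, 138 * κ ≤ dg G Z x := by
    intro x hx
    have e1 : W1 = Z ∪ U' := by rw [hZ, sdiff_union_of_subset hU'W]
    have e2 := hdeg1 x (mem_sdiff.mp hx).1
    have e3 := dg_union_le G Z U' x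
    rw [← e1] at e3
    have := hU'1 x hx
    omega
  have hgirth : ∀ Y : Finset V, Y ⊆ Z → Y.Nonempty → Cl G Y → max (r' + 1) 3 ≤ Y.card := by
    intro Y hYZ hYne hYcl
    refine max_le ?_ (cl_card G hYne hYcl)
    by_contra hc
    have hYW : Y ⊆ W1 := hYZ.trans sdiff_subset
    have hdis : Disjoint S Y :=
      disjoint_of_subset_left hSU' (disjoint_of_subset_right hYZ disjoint_sdiff)
    have hcard := card_union_of_disjoint hdis
    have h3 := hSmax (S ∪ Y) (Reach.step hS subset_union_left (union_subset hSW hYW)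
      (cl_union G hScl hYcl) (by omega))
    have := card_pos.mpr hYne
    omega
  obtain ⟨σ, hσ, hwin⟩ := h2 V G Z κ R (max (r' + 1) 3) hκ1 hZne hZdeg hV (le_max_right _ _) hgirth
  have hFU' : Reach G W1 (r' + 1) F U' :=
    ((hS.mono (by omega)).trans hU).trans (hU'.mono (by omega))
  obtain ⟨B, hB, hBU, hBc, hBor⟩ := hFU'.floor (x := m - σ) (by omega)
  have hUU' := card_le_card hU'.sub
  have hy2 : m - B.card ≤ σ + max (r' + 1) 3 + 3 := by
    have := le_max_left (r' + 1) 3
    rcases hBor with rfl | h5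
    · omega
    · omega
  obtain ⟨Γ, hΓZ, hΓ, hΓ1, hΓ2⟩ := hwin (m - B.card) (by omega) hy2
  have hdis : Disjoint B Γ :=
    disjoint_of_subset_left hBU (disjoint_of_subset_right hΓZ disjoint_sdiff)
  have hcard := card_union_of_disjoint hdis
  exact hfin (B ∪ Γ) (cl_union G (hB.cl hF) hΓ) (hB.sub.trans subset_union_left)
    (union_subset (hBU.trans hU'W) (hΓZ.trans sdiff_subset)) (by omega) (by omega)

end Pool.Agent.Lib.MP_d31508_co.Asy
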