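import Pool.Agent.Lib.MP_d31508_co.Asy.Stmts

namespace Pool.Agent.Lib.MP_d31508_co.Asy

open Finset Classical

theorem path_gap (g : ℕ) : ∀ (k : ℕ) (Q : Finset ℕ), (∀ q ∈ Q, 1 ≤ q) →
    (∀ q ∈ Q, ∀ q' ∈ Q, q < q' → q + g ≤ q') → k + 1 ≤ Q.card → ∃ q ∈ Q, k * g + 1 ≤ q := by
  intro k
  induction k with
  | zero =>
    intro Q h1 _ hc
    have : Q.Nonempty := by
      rw [← Finset.card_pos]; omega
    obtain ⟨q, hq⟩ := this
    exact ⟨q, hq, by have := h1 q hq; omega⟩
  | succ k ih =>
    intro Q h1 hg hc
    have hne : Q.Nonempty := by
      rw [← Finset.card_pos]; omega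
    have hm := Q.max'_mem hne
    obtain ⟨q, hq, hqk⟩ := ih (Q.erase (Q.max' hne))
      (fun q hq => h1 q (Finset.mem_of_mem_erase hq))
      (fun q hq q' hq' hlt => hg q (Finset.mem_of_mem_erase hq) q' (Finset.mem_of_mem_erase hq') hlt)
      (by rw [Finset.card_erase_of_mem hm]; omega)
    have hqQ := Finset.mem_of_mem_erase hq
    have hlt : q < Q.max' hne := lt_of_le_of_ne (Q.le_max' q hqQ) (Finset.ne_of_mem_erase hq)
    have h3 := hg q hqQ _ hm hlt
    refine ⟨_, hm, ?_⟩
    have : (k + 1) * g = k * g + g := by ring
    omega

/-- the sequences used -/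
def PathGood {V : Type} (G : SimpleGraph V) (X : Finset V) (L : ℕ) : Prop :=
  ∃ p : ℕ → V, (∀ i ≤ L, p i ∈ X) ∧ (∀ i ≤ L, ∀ j ≤ L, p i = p j → i = j) ∧
    (∀ i < L, G.Adj (p i) (p (i + 1)))

theorem path_dg_two {V : Type} [Fintype V] {G : SimpleGraph V} {Y : Finset V} {x a b : V}
    (ha : a ∈ Y) (hb : b ∈ Y) (hab : a ≠ b) (h1 : G.Adj x a) (h2 : G.Adj x b) : 2 ≤ dg G Y x := by
  unfold dg
  have hsub : ({a, b} : Finset V) ⊆ Y.filter (fun y => G.Adj x y) := by
    intro y hy
    simp only [Finset.mem_insert, Finset.mem_singleton] at hy
    rw [Finset.mem_filter]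
    rcases hy with rfl | rfl
    · exact ⟨ha, h1⟩
    · exact ⟨hb, h2⟩
  calc 2 = ({a, b} : Finset V).card := (Finset.card_pair hab).symm
    _ ≤ _ := Finset.card_le_card hsub

theorem stPath : StPath := by
  intro V _ G X k r hr hX hdeg hgirth
  have hgood0 : PathGood G X 0 := by
    obtain ⟨x, hx⟩ := hX
    exact ⟨fun _ => x, fun _ _ => hx, fun i hi j hj _ => by omega, fun i hi => by omega⟩
  have hbound : ∀ L, PathGood G X L → L + 1 ≤ Fintype.card V := by
    rintro L ⟨p, _, hinj, _⟩
    have h1 : ((Finset.range (L + 1)).image p).card = L + 1 := by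
      rw [Finset.card_image_of_injOn, Finset.card_range]
      intro i hi j hj hij
      simp only [Finset.coe_range, Set.mem_Iio] at hi hj
      exact hinj i (by omega) j (by omega) hij
    rw [← h1]
    exact Finset.card_le_univ _
  obtain ⟨L, hL, hmax⟩ : ∃ L, PathGood G X L ∧ ¬ PathGood G X (L + 1) := by
    by_contra hcon
    push Not at hcon
    have hall : ∀ L, PathGood G X L := by
      intro L
      induction L with
      | zero => exact hgood0
      | succ L ih => exact hcon L ih
    have := hbound _ (hall (Fintype.card V))
    omega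
  obtain ⟨p, hpX, hinj, hadj⟩ := hL
  -- neighbours of the first vertex
  set Q : Finset ℕ := (Finset.Icc 1 L).filter (fun q => G.Adj (p 0) (p q)) with hQ
  have hcardQ : k + 1 ≤ Q.card := by
    have hsub : X.filter (fun y => G.Adj (p 0) y) ⊆ Q.image p := by
      intro y hy
      rw [Finset.mem_filter] at hy
      by_contra hny
      apply hmax
      have hnot : ∀ q ≤ L, p q ≠ y := by
        intro q hq hqy
        apply hny
        rw [Finset.mem_image]
        refine ⟨q, ?_, hqy⟩
        rw [hQ, Finset.mem_filter, Finset.mem_Icc]
        have hq0 : q ≠ 0 := by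
          rintro rfl
          rw [hqy] at hy
          exact G.loopless.irrefl _ hy.2
        exact ⟨⟨by omega, hq⟩, by rw [hqy]; exact hy.2⟩
      refine ⟨fun i => if i = 0 then y else p (i - 1), ?_, ?_, ?_⟩
      · intro i hi
        by_cases h0 : i = 0
        · simp only [h0, if_true]; exact hy.1
        · simp only [h0, if_false]; exact hpX _ (by omega)
      · intro i hi j hj hij
        by_cases h0 : i = 0 <;> by_cases h0' : j = 0
        · omega
        · simp only [h0, h0', if_true, if_false] at hij
          exact absurd hij.symm (hnot _ (by omega))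
        · simp only [h0, h0', if_true, if_false] at hij
          exact absurd hij (hnot _ (by omega))
        · simp only [h0, h0', if_false] at hij
          have := hinj _ (by omega) _ (by omega) hij
          omega
      · intro i hi
        by_cases h0 : i = 0
        · subst h0
          simp only [if_true, Nat.add_eq_zero_iff, one_ne_zero, and_false, if_false, zero_add, Nat.sub_self]
          exact hy.2.symm
        · simp only [h0, if_false, Nat.add_eq_zero_iff, one_ne_zero, and_false]
          have : i + 1 - 1 = (i - 1) + 1 := by omega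
          rw [this]
          exact hadj _ (by omega)
    calc k + 1 ≤ dg G X (p 0) := hdeg _ (hpX 0 (by omega))
      _ ≤ (Q.image p).card := Finset.card_le_card hsub
      _ ≤ Q.card := Finset.card_image_le
  have hgap : ∀ q ∈ Q, ∀ q' ∈ Q, q < q' → q + (r - 2) ≤ q' := by
    intro q hq q' hq' hlt
    rw [hQ, Finset.mem_filter, Finset.mem_Icc] at hq hq'
    set Y : Finset V := insert (p 0) ((Finset.Icc q q').image p) with hY
    have hmemY : ∀ t, q ≤ t → t ≤ q' → p t ∈ Y := by
      intro t h1 h2
      rw [hY, Finset.mem_insert]
      right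
      rw [Finset.mem_image]
      exact ⟨t, by rw [Finset.mem_Icc]; exact ⟨h1, h2⟩, rfl⟩
    have h0Y : p 0 ∈ Y := by rw [hY]; exact Finset.mem_insert_self _ _
    have hYX : Y ⊆ X := by
      intro y hy
      rw [hY, Finset.mem_insert, Finset.mem_image] at hy
      rcases hy with rfl | ⟨t, ht, rfl⟩
      · exact hpX 0 (by omega)
      · rw [Finset.mem_Icc] at ht
        exact hpX t (by omega)
    have hcl : Cl G Y := by
      intro x hx
      rw [hY, Finset.mem_insert, Finset.mem_image] at hx
      rcases hx with rfl | ⟨t, ht, rfl⟩
      · refine path_dg_two (hmemY q le_rfl (by omega)) (hmemY q' (by omega) le_rfl) ?_ hq.2 hq'.2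
        intro h
        have := hinj _ (by omega) _ (by omega) h
        omega
      · rw [Finset.mem_Icc] at ht
        by_cases h1 : t = q
        · subst h1
          refine path_dg_two h0Y (hmemY (t + 1) (by omega) (by omega)) ?_ hq.2.symm (hadj t (by omega))
          intro h
          have := hinj _ (by omega) _ (by omega) h
          omega
        · by_cases h2 : t = q'
          · subst h2
            have h3 : G.Adj (p t) (p (t - 1)) := by
              have := hadj (t - 1) (by omega)
              have h4 : t - 1 + 1 = t := by omega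
              rw [h4] at this
              exact this.symm
            refine path_dg_two h0Y (hmemY (t - 1) (by omega) (by omega)) ?_ hq'.2.symm h3
            intro h
            have := hinj _ (by omega) _ (by omega) h
            omega
          · have h3 : G.Adj (p t) (p (t - 1)) := by
              have := hadj (t - 1) (by omega)
              have h4 : t - 1 + 1 = t := by omega
              rw [h4] at this
              exact this.symm
            refine path_dg_two (hmemY (t - 1) (by omega) (by omega))
              (hmemY (t + 1) (by omega) (by omega)) ?_ h3 (hadj t (by omega))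
            intro h
            have := hinj _ (by omega) _ (by omega) h
            omega
    have hcard : Y.card ≤ (q' - q + 1) + 1 := by
      rw [hY]
      calc (insert (p 0) ((Finset.Icc q q').image p)).card
          ≤ ((Finset.Icc q q').image p).card + 1 := Finset.card_insert_le _ _
        _ ≤ (Finset.Icc q q').card + 1 := by
            have := Finset.card_image_le (s := Finset.Icc q q') (f := p)
            omega
        _ = (q' - q + 1) + 1 := by rw [Nat.card_Icc]; omega
    have := hgirth Y hYX ⟨_, h0Y⟩ hcl
    omega
  obtain ⟨q, hq, hkq⟩ := path_gap (r - 2) k Q (fun q hq => by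
    rw [hQ, Finset.mem_filter, Finset.mem_Icc] at hq; exact hq.1.1) hgap hcardQ
  rw [hQ, Finset.mem_filter, Finset.mem_Icc] at hq
  have hLk : k * (r - 2) + 1 ≤ L := by omega
  exact ⟨p, fun i hi => hpX i (by omega), fun i hi j hj h => hinj i (by omega) j (by omega) h,
    fun i hi => hadj i (by omega)⟩

end Pool.Agent.Lib.MP_d31508_co.Asy
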