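import Mathlib

/-!
# Project AS (MP_d31508_co): the size of `f(n,k)` for all `n ≥ 2k`

Complement language: `m = k + 2`, and `H` (the complement of `G`) has no closed `m`-set, a closed
set being a vertex set in which every vertex has at least two neighbours.
Every module proves one of the statements `St...` below.
-/

namespace Pool.Agent.Lib.MP_d31508_co.Asy

open Finset Classical

variable {V : Type} [Fintype V]

/-- number of neighbours of `x` in `X` -/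
noncomputable def dg (G : SimpleGraph V) (X : Finset V) (x : V) : ℕ :=
  (X.filter (fun y => G.Adj x y)).card

/-- closed set: every element has at least two neighbours in the set -/
def Cl (G : SimpleGraph V) (X : Finset V) : Prop := ∀ x ∈ X, 2 ≤ dg G X x

/-- sum of the degrees inside `X` (twice the number of edges inside `X`) -/
noncomputable def D (G : SimpleGraph V) (X : Finset V) : ℕ := ∑ x ∈ X, dg G X x

/-- module Core -/
def StCore : Prop := ∀ (V : Type) [Fintype V] (G : SimpleGraph V) (d m : ℕ),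
  (m - 1) * (m - 2) + 2 * d * Fintype.card V < D G univ →
  ∃ W : Finset V, m ≤ W.card ∧ ∀ x ∈ W, d ≤ dg G W x

/-- module Core: from average degree to minimum degree -/
def StSub : Prop := ∀ (V : Type) [Fintype V] (G : SimpleGraph V) (q : ℕ) (X : Finset V),
  X.Nonempty → 1 ≤ q → 2 * q * X.card ≤ D G X →
  ∃ Y : Finset V, Y ⊆ X ∧ Y.Nonempty ∧ ∀ x ∈ Y, q ≤ dg G Y x

/-- breadth first search data inside `Z` from the root `z` -/
structure Bfs (G : SimpleGraph V) (Z : Finset V) (z : V) where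
  C : Finset V
  lev : V → ℕ
  par : V → V
  root : z ∈ C
  sub : C ⊆ Z
  lev_root : lev z = 0
  lev_zero : ∀ x ∈ C, lev x = 0 → x = z
  par_mem : ∀ x ∈ C, x ≠ z → par x ∈ C
  par_lev : ∀ x ∈ C, x ≠ z → lev (par x) + 1 = lev x
  par_adj : ∀ x ∈ C, x ≠ z → G.Adj x (par x)
  nb : ∀ x ∈ C, ∀ y ∈ Z, G.Adj x y → y ∈ C ∧ lev y ≤ lev x + 1

/-- module Bfs -/
def StBfs : Prop := ∀ (V : Type) [Fintype V] (G : SimpleGraph V) (Z : Finset V) (z : V),
  z ∈ Z → Nonempty (Bfs G Z z)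

/-- module Aug: a path with a loop (or an ear) of logarithmic size -/
def StAug : Prop := ∀ (V : Type) [Fintype V] (G : SimpleGraph V) (W A : Finset V) (w : V)
  (b R : ℕ), 2 ≤ b → (∀ x ∈ W, b + 1 ≤ dg G W x) → A ⊆ W → w ∈ W → w ∉ A →
  (∃ a ∈ A, G.Adj w a) → Fintype.card V < b ^ (R + 1) →
  ∃ X : Finset V, X ⊆ W \ A ∧ w ∈ X ∧ X.card ≤ 2 * R + 3 ∧ ∀ x ∈ X, 2 ≤ dg G (X ∪ A) x

/-- module Flex: a small closed set `F` and three vertices with two neighbours in it -/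
def StFlex : Prop := ∀ (V : Type) [Fintype V] (G : SimpleGraph V) (W : Finset V) (b R : ℕ),
  2 ≤ b → W.Nonempty → (∀ x ∈ W, b + 4 ≤ dg G W x) → Fintype.card V < b ^ (R + 1) →
  ∃ T F : Finset V, T ⊆ W ∧ T.card = 3 ∧ F ⊆ W \ T ∧ Cl G F ∧ F.card ≤ 24 * R + 42 ∧
    ∀ v ∈ T, 2 ≤ dg G F v

/-- module Word: a non-constant word has different letters at distance `j` or `j + 1` -/
def StWord : Prop := ∀ (α : Type) (N j : ℕ) (c : ℕ → α), 1 ≤ j → 2 * j ≤ N + 1 →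
  (∃ a, a + 1 ≤ N ∧ c a ≠ c (a + 1)) →
  (∃ a, a + j ≤ N ∧ c a ≠ c (a + j)) ∨ (∃ a, a + (j + 1) ≤ N ∧ c a ≠ c (a + (j + 1)))

/-- module Path: a long path from minimum degree and girth -/
def StPath : Prop := ∀ (V : Type) [Fintype V] (G : SimpleGraph V) (X : Finset V) (k r : ℕ),
  3 ≤ r → X.Nonempty → (∀ x ∈ X, k + 1 ≤ dg G X x) →
  (∀ Y : Finset V, Y ⊆ X → Y.Nonempty → Cl G Y → r ≤ Y.card) →
  ∃ p : ℕ → V, (∀ i ≤ k * (r - 2) + 1, p i ∈ X) ∧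
    (∀ i ≤ k * (r - 2) + 1, ∀ j ≤ k * (r - 2) + 1, p i = p j → i = j) ∧
    (∀ i ≤ k * (r - 2), G.Adj (p i) (p (i + 1)))

/-- module Band: one dense layer, or two dense consecutive layers -/
def StBand : Prop := ∀ (V : Type) [Fintype V] (G : SimpleGraph V) (Z : Finset V) (z : V)
  (T : Bfs G Z z) (κ R q : ℕ), 1 ≤ κ → 1 ≤ q → (∀ x ∈ Z, 6 * q * κ ≤ dg G Z x) →
  Fintype.card V < κ ^ (R + 1) →
  ∃ i, i ≤ R + 1 ∧
    ((∃ Y : Finset V, Y.Nonempty ∧ (∀ x ∈ Y, x ∈ T.C ∧ T.lev x = i) ∧ ∀ x ∈ Y, q ≤ dg G Y x) ∨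
     (∃ Y₀ Y₁ : Finset V, Y₀.Nonempty ∧ (∀ x ∈ Y₀, x ∈ T.C ∧ T.lev x = i) ∧
        (∀ x ∈ Y₁, x ∈ T.C ∧ T.lev x = i + 1) ∧
        (∀ x ∈ Y₀, q ≤ dg G Y₁ x) ∧ (∀ x ∈ Y₁, q ≤ dg G Y₀ x)))

/-- module Arc: the closed set made of a path of length `l` between two vertices of level `i` and
the two branches of the tree up to their meeting point -/
def StArc : Prop := ∀ (V : Type) [Fintype V] (G : SimpleGraph V) (Z : Finset V) (z : V)
  (T : Bfs G Z z) (i h l : ℕ) (p : ℕ → V), 1 ≤ h → h ≤ i → 1 ≤ l →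
  (∀ a ≤ l, p a ∈ T.C ∧ i ≤ T.lev (p a)) →
  T.lev (p 0) = i → T.lev (p l) = i →
  (∀ a ≤ l, ∀ b ≤ l, p a = p b → a = b) →
  (∀ a < l, G.Adj (p a) (p (a + 1))) →
  T.par^[h - 1] (p 0) ≠ T.par^[h - 1] (p l) →
  T.par^[h] (p 0) = T.par^[h] (p l) →
  ∃ Γ : Finset V, Γ ⊆ Z ∧ Cl G Γ ∧ Γ.card = 2 * h + l

/-- module Gadget: closed sets of all sizes up to an error of three in a long window -/
def StGadget : Prop := ∀ (V : Type) [Fintype V] (G : SimpleGraph V) (Z : Finset V)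
  (κ R r : ℕ), 1 ≤ κ → Z.Nonempty → (∀ x ∈ Z, 138 * κ ≤ dg G Z x) →
  Fintype.card V < κ ^ (R + 1) → 3 ≤ r →
  (∀ Y : Finset V, Y ⊆ Z → Y.Nonempty → Cl G Y → r ≤ Y.card) →
  ∃ σ, σ ≤ 2 * R + 4 ∧ ∀ y, σ ≤ y → y ≤ σ + r + 3 →
    ∃ Γ : Finset V, Γ ⊆ Z ∧ Cl G Γ ∧ y ≤ Γ.card + 3 ∧ Γ.card ≤ y

/-- module Main: large minimum degree gives closed sets of every size `m` with
`26 R + 60 ≤ m ≤ |W|` -/
def StMain : Prop := ∀ (V : Type) [Fintype V] (G : SimpleGraph V) (W : Finset V)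
  (m κ R : ℕ), 2 ≤ κ → Fintype.card V < κ ^ (R + 1) → 26 * R + 60 ≤ m → m ≤ W.card →
  (∀ x ∈ W, 138 * κ + 4 ≤ dg G W x) → ∃ S : Finset V, S ⊆ W ∧ S.card = m ∧ Cl G S

/-- module Peel: one vertex of degree at least one, all others at least two -/
def StPeel : Prop := ∀ (V : Type) [Fintype V] (G : SimpleGraph V) (C : Finset V) (x : V),
  x ∈ C → 1 ≤ dg G C x → (∀ y ∈ C, y ≠ x → 2 ≤ dg G C y) →
  ∃ Y : Finset V, Y ⊆ C ∧ Y.Nonempty ∧ Cl G Y

/-- module Girth: many edges and no small closed set -/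
def StGirth : Prop := ∀ (n m Δ : ℕ), 1 ≤ m → 2 ≤ Δ → 2 * Δ ^ m ≤ n →
  ∃ G : SimpleGraph (Fin n), (∀ Y : Finset (Fin n), Y.Nonempty → Cl G Y → m < Y.card) ∧
    n * Δ ≤ 2 * D G univ

/-- module Glue: lower bound graphs -/
def StGlue : Prop := ∀ (n m : ℕ), 4 ≤ m → m ≤ n →
  (∃ H : SimpleGraph (Fin n), (∀ S : Finset (Fin n), S.card = m → ¬ Cl H S) ∧
    (m - 1) * (m - 2) + 2 * (n - (m - 1)) ≤ D H univ) ∧
  (∀ Δ : ℕ, 2 ≤ Δ → 2 * Δ ^ m ≤ n - (m - 1) →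
    ∃ H : SimpleGraph (Fin n), (∀ S : Finset (Fin n), S.card = m → ¬ Cl H S) ∧
      2 * ((m - 1) * (m - 2)) + (n - (m - 1)) * Δ ≤ 2 * D H univ)

/-- `G` has the property `P_k`: every set of exactly `k + 2` vertices contains a vertex adjacent
to at least `k` vertices of the set -/
def HasP {n : ℕ} (k : ℕ) (G : SimpleGraph (Fin n)) : Prop :=
  ∀ S : Finset (Fin n), S.card = k + 2 → ∃ v ∈ S, k ≤ {w | w ∈ S ∧ G.Adj v w}.ncard

/-- `f(n,k)`, the least number of edges of a graph on `n` vertices with the property `P_k` -/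
noncomputable def f (n k : ℕ) : ℕ :=
  sInf {e | ∃ G : SimpleGraph (Fin n), HasP k G ∧ G.edgeSet.ncard = e}

/-- module Compl: translation to the complement -/
def StCompl : Prop := ∀ (n k : ℕ), 1 ≤ k →
  (∀ H : SimpleGraph (Fin n), (∀ S : Finset (Fin n), S.card = k + 2 → ¬ Cl H S) →
    2 * f n k + D H univ + n ≤ n * n) ∧
  (∃ H : SimpleGraph (Fin n), (∀ S : Finset (Fin n), S.card = k + 2 → ¬ Cl H S) ∧
    2 * f n k + D H univ + n = n * n)

/-- the final statement -/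
def StFinal : Prop := ∀ n k : ℕ, 2 ≤ k → 2 * k ≤ n →
  (f n k : ℝ) + (k + 1).choose 2 + (1 / 32) * (n : ℝ) ^ (1 + 1 / ((k : ℝ) + 2)) ≤ n.choose 2 ∧
  (n.choose 2 : ℝ) ≤ (f n k : ℝ) + (k + 1).choose 2 + 300 * (n : ℝ) ^ (1 + 86 / ((k : ℝ) + 2))

end Pool.Agent.Lib.MP_d31508_co.Asy
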