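import Pool.Agent.Lib.MP_d31508_co.Asy.Stmts

/-!
# Project AS, module Word
-/

namespace Pool.Agent.Lib.MP_d31508_co.Asy

theorem stWord : StWord := by
  intro α N j c hj hN hne
  by_contra hcon
  push Not at hcon
  obtain ⟨h1, h2⟩ := hcon
  -- step invariance on `[j, N]`
  have hstep : ∀ e, j ≤ e → e + 1 ≤ N → c (e + 1) = c e := by
    intro e he heN
    have a1 : c (e - j) = c (e - j + (j + 1)) := h2 (e - j) (by omega)
    have a2 : c (e - j) = c (e - j + j) := h1 (e - j) (by omega)
    have e1 : e - j + (j + 1) = e + 1 := by omega
    have e2 : e - j + j = e := by omega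
    rw [e1] at a1
    rw [e2] at a2
    rw [← a1, a2]
  have hconst : ∀ t, j + t ≤ N → c (j + t) = c j := by
    intro t
    induction t with
    | zero => intro _; rfl
    | succ t ih =>
      intro ht
      have := hstep (j + t) (by omega) (by omega)
      rw [← ih (by omega), ← this]
      rfl
  have hall : ∀ a, a ≤ N → c a = c j := by
    intro a ha
    by_cases haj : j ≤ a
    · have := hconst (a - j) (by omega)
      rwa [show j + (a - j) = a by omega] at this
    · have h3 := h1 a (by omega)
      have h4 := hconst a (by omega)
      rw [h3, ← h4, Nat.add_comm]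
  obtain ⟨a, ha, hca⟩ := hne
  exact hca ((hall a (by omega)).trans (hall (a + 1) (by omega)).symm)

end Pool.Agent.Lib.MP_d31508_co.Asy
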